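import Pool.Agent.H50Z.Aut.Uniq

/-! Effectively analytic predicates of a function and a coded object; a basis theorem. -/

set_option autoImplicit false

namespace Pool.Agent.H50Z.Hyp

open Encodable Pool.Agent.H50Z.Aut

variable {α β : Type} [Primcodable α] [Primcodable β]

def S (P : (ℕ → ℕ) → α → Prop) : Prop :=
  ∃ R : α × List ℕ × List ℕ → Prop, PrimrecPred R ∧
    ∀ F a, P F a ↔ ∃ g : ℕ → ℕ, ∀ k, R (a, fw F k, fw g k)

theorem S.of_iff {P Q : (ℕ → ℕ) → α → Prop} (h : S P) (e : ∀ F a, Q F a ↔ P F a) : S Q := by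
  have : Q = P := funext fun F => funext fun a => propext (e F a)
  rw [this]; exact h

theorem S.gen {P : (ℕ → ℕ) → α → Prop} {R : (α × ℕ) × List ℕ × List ℕ → Prop} (hR : PrimrecPred R)
    {u : α × ℕ → ℕ} (hu : Primrec u)
    (h : ∀ F a, P F a ↔ ∃ g : ℕ → ℕ, ∀ n, R ((a, n), fw F (u (a, n)), fw g (u (a, n)))) : S P := by
  refine ⟨fun z => ∀ n ∈ List.range z.2.1.length, ¬ u (z.1, n) ≤ z.2.1.length ∨
    R ((z.1, n), z.2.1.take (u (z.1, n)), z.2.2.take (u (z.1, n))), ?_, fun F a => ?_⟩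
  · have an : Primrec fun x : ℕ × (α × List ℕ × List ℕ) => (x.2.1, x.1) :=
      (Primrec.fst.comp Primrec.snd).pair Primrec.fst
    have l1 : Primrec fun x : ℕ × (α × List ℕ × List ℕ) => x.2.2.1 :=
      Primrec.fst.comp (Primrec.snd.comp Primrec.snd)
    have l2 : Primrec fun x : ℕ × (α × List ℕ × List ℕ) => x.2.2.2 :=
      Primrec.snd.comp (Primrec.snd.comp Primrec.snd)
    have h1 : PrimrecRel fun (n : ℕ) (z : α × List ℕ × List ℕ) => ¬ u (z.1, n) ≤ z.2.1.length ∨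
        R ((z.1, n), z.2.1.take (u (z.1, n)), z.2.2.take (u (z.1, n))) :=
      PrimrecPred.primrecRel (p := fun x : ℕ × (α × List ℕ × List ℕ) =>
        ¬ u (x.2.1, x.1) ≤ x.2.2.1.length ∨
          R ((x.2.1, x.1), x.2.2.1.take (u (x.2.1, x.1)), x.2.2.2.take (u (x.2.1, x.1))))
        ((Primrec.nat_le.comp (hu.comp an) (Primrec.list_length.comp l1)).not.or
          (hR.comp (an.pair ((Primrec.list_take.comp (hu.comp an) l1).pair
            (Primrec.list_take.comp (hu.comp an) l2)))))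
    exact h1.forall_mem_list.comp (Primrec.list_range.comp
      (Primrec.list_length.comp (Primrec.fst.comp Primrec.snd))) Primrec.id
  · rw [h]
    refine exists_congr fun g => ⟨fun hg k n _ => ?_, fun hg n => ?_⟩
    · by_cases hu : u (a, n) ≤ k
      · right
        simp only
        rw [fw_take F hu, fw_take g hu]
        exact hg n
      · left
        simpa using hu
    · rcases hg (n + u (a, n) + 1) n (by simp) with h1 | h1
      · simp at h1
        omega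
      · simp only at h1
        rwa [fw_take F (by omega), fw_take g (by omega)] at h1

theorem S.comp {P : (ℕ → ℕ) → β → Prop} (h : S P) {f : α → β} (hf : Primrec f) :
    S fun F a => P F (f a) := by
  obtain ⟨R, hR, e⟩ := h
  exact ⟨fun z => R (f z.1, z.2), hR.comp ((hf.comp Primrec.fst).pair Primrec.snd),
    fun F a => e F (f a)⟩

theorem S.use {R : α × List ℕ → Prop} (hR : PrimrecPred R) {u : α → ℕ} (hu : Primrec u) :
    S fun F a => R (a, fw F (u a)) :=
  S.gen (R := fun z => R (z.1.1, z.2.1)) (u := fun z => u z.1)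
    (hR.comp ((Primrec.fst.comp Primrec.fst).pair (Primrec.fst.comp Primrec.snd)))
    (hu.comp Primrec.fst) fun _ _ => ⟨fun h => ⟨fun _ => 0, fun _ => h⟩, fun ⟨_, h⟩ => h 0⟩

theorem S.all {P : (ℕ → ℕ) → α × ℕ → Prop} (h : S P) : S fun F a => ∀ y, P F (a, y) := by
  obtain ⟨R, hR, e⟩ := h
  refine S.gen (R := fun z => R ((z.1.1, z.1.2.unpair.1), z.2.1.take z.1.2.unpair.2,
    (List.range z.1.2.unpair.2).map fun k => z.2.2.getD (Nat.pair z.1.2.unpair.1 k) 0))
    (u := fun z => z.2) ?_ Primrec.snd fun F a => ?_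
  · have u1 : Primrec fun z : (α × ℕ) × List ℕ × List ℕ => z.1.2.unpair.1 :=
      Primrec.fst.comp (Primrec.unpair.comp (Primrec.snd.comp Primrec.fst))
    have u2 : Primrec fun z : (α × ℕ) × List ℕ × List ℕ => z.1.2.unpair.2 :=
      Primrec.snd.comp (Primrec.unpair.comp (Primrec.snd.comp Primrec.fst))
    exact hR.comp (((Primrec.fst.comp Primrec.fst).pair u1).pair
      ((Primrec.list_take.comp u2 (Primrec.fst.comp Primrec.snd)).pair
        (Primrec.list_map (Primrec.list_range.comp u2)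
          ((Primrec.list_getD 0).comp₂ ((Primrec.snd.comp Primrec.snd).comp₂ Primrec₂.left)
            (Primrec₂.natPair.comp₂ (u1.comp₂ Primrec₂.left) Primrec₂.right)))))
  · have key : ∀ (g : ℕ → ℕ) (y k : ℕ), (List.range k).map
        (fun i => (fw g (Nat.pair y k)).getD (Nat.pair y i) 0) = fw (fun i => g (Nat.pair y i)) k := by
      intro g y k
      refine List.map_congr_left fun i hi => ?_
      rw [fw_getD, if_pos (Nat.pair_lt_pair_right y (List.mem_range.1 hi))]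
    simp only [e]
    constructor
    · intro h
      choose g hg using h
      refine ⟨fun n => g n.unpair.1 n.unpair.2, fun n => ?_⟩
      obtain ⟨y, k, rfl⟩ : ∃ y k, n = Nat.pair y k := ⟨_, _, (Nat.pair_unpair n).symm⟩
      simp only [Nat.unpair_pair]
      rw [key, fw_take F (Nat.right_le_pair y k)]
      simpa only [Nat.unpair_pair] using hg y k
    · rintro ⟨g, hg⟩ y
      refine ⟨fun i => g (Nat.pair y i), fun k => ?_⟩
      have := hg (Nat.pair y k)
      simp only [Nat.unpair_pair] at this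
      rwa [key, fw_take F (Nat.right_le_pair y k)] at this

theorem fw_tail (g : ℕ → ℕ) (k : ℕ) : (fw g (k + 1)).tail = fw (fun i => g (i + 1)) k := by
  simp [fw, List.range_succ_eq_map]

theorem S.ex {P : (ℕ → ℕ) → α × ℕ → Prop} (h : S P) : S fun F a => ∃ y, P F (a, y) := by
  obtain ⟨R, hR, e⟩ := h
  refine S.gen (R := fun z => R ((z.1.1, z.2.2.getD 0 0), z.2.1.take z.1.2, z.2.2.tail))
    (u := fun z => z.2 + 1) ?_ (Primrec.succ.comp Primrec.snd) fun F a => ?_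
  · exact hR.comp (((Primrec.fst.comp Primrec.fst).pair
      ((Primrec.list_getD 0).comp (Primrec.snd.comp Primrec.snd) (Primrec.const 0))).pair
      ((Primrec.list_take.comp (Primrec.snd.comp Primrec.fst) (Primrec.fst.comp Primrec.snd)).pair
        (Primrec.list_tail.comp (Primrec.snd.comp Primrec.snd))))
  · simp only [e, fw_tail, fw_getD, Nat.zero_lt_succ, if_true, fw_take F (Nat.le_succ _)]
    constructor
    · rintro ⟨y, g, hg⟩
      exact ⟨fun i => Nat.casesOn i y g, hg⟩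
    · rintro ⟨g, hg⟩
      exact ⟨_, _, hg⟩

theorem S.sel {P Q : (ℕ → ℕ) → α → Prop} (h : S P) (h' : S Q) :
    S fun F (a : α × ℕ) => (a.2 = 0 ∧ P F a.1) ∨ (¬ a.2 = 0 ∧ Q F a.1) := by
  obtain ⟨R, hR, e⟩ := h
  obtain ⟨R', hR', e'⟩ := h'
  have z0 : PrimrecPred fun z : (α × ℕ) × List ℕ × List ℕ => z.1.2 = 0 :=
    Primrec.eq.comp (Primrec.snd.comp Primrec.fst) (Primrec.const 0)
  have pr : Primrec fun z : (α × ℕ) × List ℕ × List ℕ => (z.1.1, z.2) :=
    (Primrec.fst.comp Primrec.fst).pair Primrec.snd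
  refine ⟨fun z => (z.1.2 = 0 ∧ R (z.1.1, z.2)) ∨ (¬ z.1.2 = 0 ∧ R' (z.1.1, z.2)),
    (z0.and (hR.comp pr)).or (z0.not.and (hR'.comp pr)), fun F a => ?_⟩
  by_cases h0 : a.2 = 0 <;> simp [h0, e, e']

theorem S.and {P Q : (ℕ → ℕ) → α → Prop} (h : S P) (h' : S Q) : S fun F a => P F a ∧ Q F a :=
  (h.sel h').all.of_iff fun F a => ⟨fun ⟨h1, h2⟩ y => by by_cases h0 : y = 0 <;> simp [h0, h1, h2],
    fun hh => ⟨by simpa using hh 0, by simpa using hh 1⟩⟩

theorem S.or {P Q : (ℕ → ℕ) → α → Prop} (h : S P) (h' : S Q) : S fun F a => P F a ∨ Q F a :=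
  (h.sel h').ex.of_iff fun F a => ⟨fun hh => hh.elim (fun h1 => ⟨0, Or.inl ⟨rfl, h1⟩⟩)
    fun h2 => ⟨1, Or.inr ⟨one_ne_zero, h2⟩⟩, fun ⟨_, hh⟩ => hh.imp (·.2) (·.2)⟩

def D (P : (ℕ → ℕ) → α → Prop) : Prop := S P ∧ S fun F a => ¬ P F a

theorem D.of_iff {P Q : (ℕ → ℕ) → α → Prop} (h : D P) (e : ∀ F a, Q F a ↔ P F a) : D Q := by
  have : Q = P := funext fun F => funext fun a => propext (e F a)
  rw [this]; exact h

theorem D.comp {P : (ℕ → ℕ) → β → Prop} (h : D P) {f : α → β} (hf : Primrec f) :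
    D fun F a => P F (f a) := ⟨h.1.comp hf, h.2.comp hf⟩

theorem D.prim {p : α → Prop} (hp : PrimrecPred p) : D fun _ a => p a :=
  ⟨S.use (R := fun z => p z.1) (hp.comp Primrec.fst) (Primrec.const 0),
    S.use (R := fun z => ¬ p z.1) (hp.comp Primrec.fst).not (Primrec.const 0)⟩

theorem D.val {f g : α → ℕ} (hf : Primrec f) (hg : Primrec g) : D fun F a => F (f a) = g a := by
  have h : PrimrecPred fun z : α × List ℕ => z.2.getD (f z.1) 0 = g z.1 :=
    Primrec.eq.comp ((Primrec.list_getD 0).comp Primrec.snd (hf.comp Primrec.fst))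
      (hg.comp Primrec.fst)
  exact ⟨(S.use h (Primrec.succ.comp hf)).of_iff fun F a => by simp [fw],
    (S.use h.not (Primrec.succ.comp hf)).of_iff fun F a => by simp [fw]⟩

theorem D.not {P : (ℕ → ℕ) → α → Prop} (h : D P) : D fun F a => ¬ P F a :=
  ⟨h.2, h.1.of_iff fun _ _ => not_not⟩

theorem D.and {P Q : (ℕ → ℕ) → α → Prop} (h : D P) (h' : D Q) : D fun F a => P F a ∧ Q F a :=
  ⟨h.1.and h'.1, (h.2.or h'.2).of_iff fun _ _ => not_and_or⟩

theorem D.or {P Q : (ℕ → ℕ) → α → Prop} (h : D P) (h' : D Q) : D fun F a => P F a ∨ Q F a :=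
  ⟨h.1.or h'.1, (h.2.and h'.2).of_iff fun _ _ => not_or⟩

theorem D.imp {P Q : (ℕ → ℕ) → α → Prop} (h : D P) (h' : D Q) : D fun F a => P F a → Q F a :=
  (h.not.or h').of_iff fun _ _ => imp_iff_not_or

theorem D.ex0 {P : (ℕ → ℕ) → α × ℕ → Prop} (h : D P) : D fun F a => ∃ y, P F (a, y) :=
  ⟨h.1.ex, h.2.all.of_iff fun _ _ => not_exists⟩

theorem D.ex [Inhabited β] {P : (ℕ → ℕ) → α → β → Prop} (h : D fun F (z : α × β) => P F z.1 z.2) :
    D fun F a => ∃ y, P F a y :=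
  (h.comp (f := fun z : α × ℕ => (z.1, (decode z.2 : Option β).getD default))
    (Primrec.fst.pair (Primrec.option_getD_default.comp
      (Primrec.decode.comp Primrec.snd)))).ex0.of_iff fun F a =>
    ⟨fun ⟨y, hy⟩ => ⟨encode y, by simpa using hy⟩, fun ⟨_, hy⟩ => ⟨_, hy⟩⟩

theorem D.all [Inhabited β] {P : (ℕ → ℕ) → α → β → Prop}
    (h : D fun F (z : α × β) => P F z.1 z.2) : D fun F a => ∀ y, P F a y :=
  (D.ex (P := fun F a y => ¬ P F a y) h.not).not.of_iff fun _ _ => by simp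

open Classical in
theorem D.count {K : (ℕ → ℕ) → α → ℕ → Prop} (h : D fun F (z : α × ℕ) => K F z.1 z.2) :
    D fun F (z : α × ℕ × ℕ) => Nat.count (K F z.1) z.2.1 = z.2.2 := by
  have gd : ∀ {γ : Type} [Primcodable γ] {l : γ → List ℕ} {i : γ → ℕ}, Primrec l → Primrec i →
      Primrec fun z => (l z).getD (i z) 0 := fun hl hi => (Primrec.list_getD 0).comp hl hi
  have hK : D fun F (z : ((α × ℕ × ℕ) × List ℕ) × ℕ) => K F z.1.1.1 z.2 :=
    h.comp ((Primrec.fst.comp (Primrec.fst.comp Primrec.fst)).pair Primrec.snd)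
  have u : Primrec fun z : ((α × ℕ × ℕ) × List ℕ) × ℕ => z.1.2 := Primrec.snd.comp Primrec.fst
  have h1 : D fun F (z : (α × ℕ × ℕ) × List ℕ) => ∀ j, j < z.1.2.1 →
      (K F z.1.1 j ∧ z.2.getD (j + 1) 0 = z.2.getD j 0 + 1) ∨
        (¬ K F z.1.1 j ∧ z.2.getD (j + 1) 0 = z.2.getD j 0) :=
    D.all ((D.prim (Primrec.nat_lt.comp Primrec.snd
      (Primrec.fst.comp (Primrec.snd.comp (Primrec.fst.comp Primrec.fst))))).imp
      ((hK.and (D.prim (Primrec.eq.comp (gd u (Primrec.succ.comp Primrec.snd))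
        (Primrec.succ.comp (gd u Primrec.snd))))).or
        (hK.not.and (D.prim (Primrec.eq.comp (gd u (Primrec.succ.comp Primrec.snd))
          (gd u Primrec.snd))))))
  have h2 : D fun F (z : α × ℕ × ℕ) => ∃ l : List ℕ, (l.getD 0 0 = 0 ∧ l.getD z.2.1 0 = z.2.2) ∧
      ∀ j, j < z.2.1 → (K F z.1 j ∧ l.getD (j + 1) 0 = l.getD j 0 + 1) ∨
        (¬ K F z.1 j ∧ l.getD (j + 1) 0 = l.getD j 0) :=
    D.ex ((D.prim ((Primrec.eq.comp (gd Primrec.snd (Primrec.const 0)) (Primrec.const 0)).and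
      (Primrec.eq.comp (gd Primrec.snd (Primrec.fst.comp (Primrec.snd.comp Primrec.fst)))
        (Primrec.snd.comp (Primrec.snd.comp Primrec.fst))))).and h1)
  refine h2.of_iff fun F ⟨a, N, r⟩ => ?_
  simp only
  constructor
  · intro hr
    refine ⟨fw (Nat.count (K F a)) (N + 1), ⟨by rw [fw_getD, if_pos (by omega)]; simp,
      by rw [fw_getD, if_pos (by omega)]; exact hr⟩, fun j hj => ?_⟩
    rw [fw_getD, fw_getD, if_pos (by omega), if_pos (by omega), Nat.count_succ]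
    by_cases hk : K F a j <;> simp [hk]
  · rintro ⟨l, ⟨h0, hr⟩, hl⟩
    have : ∀ j, j ≤ N → Nat.count (K F a) j = l.getD j 0 := by
      intro j
      induction j with
      | zero => intro _; rw [h0]; simp
      | succ j ih =>
        intro hj
        rw [Nat.count_succ, ih (by omega)]
        rcases hl j (by omega) with ⟨h1, h2⟩ | ⟨h1, h2⟩ <;> simp only [h1, h2, if_true, if_false,
          add_zero]
    rw [this N le_rfl, hr]

/-- The relative `Π¹₁` sets. -/
def Pi11 (Y B : Set ℕ) : Prop :=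
  ∃ R : ℕ → List ℕ → List ℕ → Prop,
    ComputablePred (fun p : ℕ × List ℕ × List ℕ => R p.1 p.2.1 p.2.2) ∧
    ∀ n : ℕ, n ∈ Y ↔ ∀ f : ℕ → ℕ, ∃ m : ℕ,
      R n ((List.range m).map (B.indicator (fun _ => (1 : ℕ)))) ((List.range m).map f)

theorem pi11_of {R : List ℕ × List ℕ → Prop} (hR : PrimrecPred R) (F0 g0 : ℕ → ℕ) (L : ℕ)
    {f : ℕ → ℕ} (hf : Primrec f) {T : ℕ → Prop} (hT : PrimrecPred T) {Y : Set ℕ}
    (h0 : ∀ k, R (fw F0 k, fw g0 k))
    (h : ∀ F g, (∀ k, R (fw F k, fw g k)) → fw F L = fw F0 L → fw g L = fw g0 L →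
      ∀ n, n ∈ Y ↔ T (F (f n))) : Pi11 Y ∅ := by
  classical
  let a : List ℕ → List ℕ := fun l => l.map fun x => x.unpair.1
  let b : List ℕ → List ℕ := fun l => l.map fun x => x.unpair.2
  have ha : Primrec a :=
    Primrec.list_map Primrec.id ((Primrec.fst.comp Primrec.unpair).comp₂ Primrec₂.right)
  have hb : Primrec b :=
    Primrec.list_map Primrec.id ((Primrec.snd.comp Primrec.unpair).comp₂ Primrec₂.right)
  have l : Primrec fun p : ℕ × List ℕ × List ℕ => p.2.2 := Primrec.snd.comp Primrec.snd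
  have hp : PrimrecPred fun p : ℕ × List ℕ × List ℕ => ¬ R (a p.2.2, b p.2.2) ∨
      (L ≤ p.2.2.length ∧ ¬ ((a p.2.2).take L = fw F0 L ∧ (b p.2.2).take L = fw g0 L)) ∨
        (f p.1 < p.2.2.length ∧ T ((a p.2.2).getD (f p.1) 0)) :=
    (hR.comp ((ha.comp l).pair (hb.comp l))).not.or
      (((Primrec.nat_le.comp (Primrec.const L) (Primrec.list_length.comp l)).and
        ((Primrec.eq.comp (Primrec.list_take.comp (Primrec.const L) (ha.comp l))
          (Primrec.const _)).and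
          (Primrec.eq.comp (Primrec.list_take.comp (Primrec.const L) (hb.comp l))
            (Primrec.const _))).not).or
        ((Primrec.nat_lt.comp (hf.comp Primrec.fst) (Primrec.list_length.comp l)).and
          (hT.comp ((Primrec.list_getD 0).comp (ha.comp l) (hf.comp Primrec.fst)))))
  refine ⟨fun n _ v => ¬ R (a v, b v) ∨
      (L ≤ v.length ∧ ¬ ((a v).take L = fw F0 L ∧ (b v).take L = fw g0 L)) ∨
        (f n < v.length ∧ T ((a v).getD (f n) 0)), ⟨inferInstance, hp.decide.to_comp⟩, fun n => ?_⟩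
  have ea : ∀ (h : ℕ → ℕ) m, a ((List.range m).map h) = fw (fun i => (h i).unpair.1) m :=
    fun h m => by simp [a, fw]
  have eb : ∀ (h : ℕ → ℕ) m, b ((List.range m).map h) = fw (fun i => (h i).unpair.2) m :=
    fun h m => by simp [b, fw]
  simp only [ea, eb, List.length_map, List.length_range]
  constructor
  · intro hn x
    by_contra hc
    push Not at hc
    have h1 := (hc L).2.1 le_rfl
    rw [fw_take _ le_rfl, fw_take _ le_rfl] at h1
    have h2 := (hc (f n + 1)).2.2 (by omega)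
    rw [fw_getD, if_pos (by omega)] at h2
    exact h2 ((h _ _ (fun k => (hc k).1) h1.1 h1.2 n).1 hn)
  · intro hx
    obtain ⟨m, hm⟩ := hx fun i => Nat.pair (F0 i) (g0 i)
    simp only [Nat.unpair_pair] at hm
    rcases hm with h1 | ⟨h1, h2⟩ | ⟨h1, h2⟩
    · exact absurd (h0 m) h1
    · exact absurd ⟨fw_take _ h1, fw_take _ h1⟩ h2
    · rw [fw_getD, if_pos h1] at h2
      exact (h F0 g0 h0 rfl rfl n).2 h2

theorem fw_eq_iff {F G : ℕ → ℕ} {L : ℕ} : fw F L = fw G L ↔ ∀ i < L, F i = G i := by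
  simp [fw]

theorem basis {C : (ℕ → ℕ) → Prop} (hC : S fun F (_ : Unit) => C F) (hne : ∃ F, C F) {X : Set ℕ}
    (hX : ¬ (Pi11 X ∅ ∧ Pi11 Xᶜ ∅)) {f : ℕ → ℕ → ℕ} (hf : ∀ i, Primrec (f i)) :
    ∃ F, C F ∧ ∀ i, ∃ n, ¬ (n ∈ X ↔ F (f i n) = 1) := by
  obtain ⟨R0, hR0, e⟩ := hC
  let R : List ℕ × List ℕ → Prop := fun z => R0 ((), z)
  have hR : PrimrecPred R := hR0.comp ((Primrec.const ()).pair Primrec.id)
  let St : Type := {z : (ℕ → ℕ) × (ℕ → ℕ) × ℕ // ∀ k, R (fw z.1 k, fw z.2.1 k)}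
  have step : ∀ (i : ℕ) (z : St), ∃ z' : St, fw z'.1.1 z.1.2.2 = fw z.1.1 z.1.2.2 ∧
      fw z'.1.2.1 z.1.2.2 = fw z.1.2.1 z.1.2.2 ∧ z.1.2.2 < z'.1.2.2 ∧
        ∃ n, f i n < z'.1.2.2 ∧ ¬ (n ∈ X ↔ z'.1.1 (f i n) = 1) := by
    rintro i ⟨⟨F0, g0, L⟩, h0⟩
    by_contra hc
    have h : ∀ F g, (∀ k, R (fw F k, fw g k)) → fw F L = fw F0 L → fw g L = fw g0 L →
        ∀ n, n ∈ X ↔ F (f i n) = 1 := by
      intro F g h1 h2 h3 n
      by_contra h4
      exact hc ⟨⟨(F, g, L + f i n + 1), h1⟩, h2, h3, by simp only; omega, n, by simp only; omega,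
        h4⟩
    have hT : PrimrecPred fun x : ℕ => x = 1 := Primrec.eq.comp Primrec.id (Primrec.const 1)
    exact hX ⟨pi11_of hR F0 g0 L (hf i) hT h0 h, pi11_of hR F0 g0 L (hf i) hT.not h0
      fun F g h1 h2 h3 n => not_congr (h F g h1 h2 h3 n)⟩
  choose nx h1 h2 h3 h4 using step
  obtain ⟨F0, hF0⟩ := hne
  obtain ⟨g0, hg0⟩ := (e F0 ()).1 hF0
  let z : ℕ → St := fun k => Nat.rec ⟨(F0, g0, 0), hg0⟩ nx k
  have hz : ∀ k, z (k + 1) = nx k (z k) := fun _ => rfl
  have hL : StrictMono fun k => (z k).1.2.2 := strictMono_nat_of_lt_succ fun k => h3 k (z k)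
  have hag : ∀ k d i, i < (z k).1.2.2 →
      (z (k + d)).1.1 i = (z k).1.1 i ∧ (z (k + d)).1.2.1 i = (z k).1.2.1 i := by
    intro k d i hi
    induction d with
    | zero => exact ⟨rfl, rfl⟩
    | succ d ih =>
      have hi' : i < (z (k + d)).1.2.2 := hi.trans_le (hL.monotone (Nat.le_add_right k d))
      rw [← add_assoc, hz, fw_eq_iff.1 (h1 _ _) i hi', fw_eq_iff.1 (h2 _ _) i hi']
      exact ih
  have hlim : ∀ k i, i < (z k).1.2.2 →
      (z (i + 1)).1.1 i = (z k).1.1 i ∧ (z (i + 1)).1.2.1 i = (z k).1.2.1 i := by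
    intro k i hi
    have a1 := hag k (i + 1) i hi
    have a2 := hag (i + 1) k i (lt_of_lt_of_le (Nat.lt_succ_self i) hL.le_apply)
    rw [show i + 1 + k = k + (i + 1) by omega] at a2
    exact ⟨a2.1.symm.trans a1.1, a2.2.symm.trans a1.2⟩
  refine ⟨fun i => (z (i + 1)).1.1 i, (e _ ()).2 ⟨fun i => (z (i + 1)).1.2.1 i, fun k => ?_⟩,
    fun i => ?_⟩
  · have hk : ∀ i < k, i < (z k).1.2.2 := fun i hi => hi.trans_le hL.le_apply
    rw [fw_eq_iff.2 fun i hi => (hlim k i (hk i hi)).1,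
      fw_eq_iff.2 fun i hi => (hlim k i (hk i hi)).2]
    exact (z k).2 k
  · obtain ⟨n, h5, h6⟩ := h4 i (z i)
    refine ⟨n, ?_⟩
    show ¬ (n ∈ X ↔ (z (f i n + 1)).1.1 (f i n) = 1)
    rw [(hlim (i + 1) _ h5).1]
    exact h6

end Pool.Agent.H50Z.Hyp
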