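import Pool.Agent.H50Z.Hyp.Gen

/-! Bounded formulas about a sampled system: clopen and arithmetical in the code. -/

set_option autoImplicit false
set_option synthInstance.maxSize 20000

namespace Pool.Agent.H50Z.Hyp

open Encodable Filter
open Nat.Partrec (Code)

class PR {α β : Type} [Primcodable α] [Primcodable β] (f : α → β) : Prop where
  h : Primrec f

section
variable {α β γ : Type} [Primcodable α] [Primcodable β] [Primcodable γ]

instance (priority := low) {f : α → β} {g : α → γ} [a : PR f] [b : PR g] :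
    PR fun x => (f x, g x) := ⟨a.h.pair b.h⟩
instance {f : α → β × γ} [a : PR f] : PR fun x => (f x).1 := ⟨Primrec.fst.comp a.h⟩
instance {f : α → β × γ} [a : PR f] : PR fun x => (f x).2 := ⟨Primrec.snd.comp a.h⟩
instance {f : α → List β} [a : PR f] : PR fun x => (f x).length := ⟨Primrec.list_length.comp a.h⟩
instance {f : α → ℕ} {g : α → List β} [a : PR f] [b : PR g] : PR fun x => (g x).take (f x) :=
  ⟨Primrec.list_take.comp a.h b.h⟩
instance {f : α → ℕ} {g : α → List β} {d : β} [a : PR f] [b : PR g] :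
    PR fun x => (g x).getD (f x) d := ⟨(Primrec.list_getD d).comp b.h a.h⟩
instance {f : α → β} [a : PR f] : PR fun x => encode (f x) := ⟨Primrec.encode.comp a.h⟩
instance {f g : α → ℕ} [a : PR f] [b : PR g] : PR fun x => f x + g x :=
  ⟨Primrec.nat_add.comp a.h b.h⟩
instance {f g : α → ℕ} [a : PR f] [b : PR g] : PR fun x => f x * g x :=
  ⟨Primrec.nat_mul.comp a.h b.h⟩
instance {f : α → β} [a : PR f] : PR fun x => (Sum.inl (f x) : β ⊕ γ) :=
  ⟨Primrec.sumInl.comp a.h⟩
instance {f : α → γ} [a : PR f] : PR fun x => (Sum.inr (f x) : β ⊕ γ) :=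
  ⟨Primrec.sumInr.comp a.h⟩
instance {f : α → List Bool} [a : PR f] : PR fun x => bits (f x) :=
  ⟨Primrec.list_map a.h (Primrec.cond Primrec.snd (Primrec.const 1) (Primrec.const 0)).to₂⟩
instance {f : α → Pos} {g : α → ℕ} [a : PR f] [b : PR g] : PR fun x => ch (f x) (g x) :=
  ⟨(Primrec.fst.comp a.h).pair ((Primrec.fst.comp (Primrec.snd.comp a.h)).pair
    (Primrec.list_concat.comp (Primrec.snd.comp (Primrec.snd.comp a.h)) b.h))⟩
instance {f h : α → ℕ} {g : α → Code} [a : PR f] [b : PR g] [c : PR h] :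
    PR fun x => Code.evaln (f x) (g x) (h x) :=
  ⟨Code.primrec_evaln.comp ((a.h.pair b.h).pair c.h)⟩
instance : PR fun x : α => x := ⟨Primrec.id⟩
instance {b : β} : PR fun _ : α => b := ⟨Primrec.const b⟩

theorem D.eq {f g : α → β} [a : PR f] [b : PR g] : D fun _ x => f x = g x := by
  classical exact D.prim (Primrec.eq.comp a.h b.h)
theorem D.le {f g : α → ℕ} [a : PR f] [b : PR g] : D fun _ x => f x ≤ g x :=
  D.prim (Primrec.nat_le.comp a.h b.h)
theorem D.lt {f g : α → ℕ} [a : PR f] [b : PR g] : D fun _ x => f x < g x :=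
  D.prim (Primrec.nat_lt.comp a.h b.h)

theorem D.at {f : α → Sh} {g : α → List Bool} [a : PR f] [b : PR g] :
    D fun _ x => At (f x) (g x) := by
  have h : D fun _ (x : Sh × List Bool) => At x.1 x.2 :=
    D.eq.and (D.ex (D.lt.and (D.le.and D.eq)))
  exact h.comp (a.h.pair b.h)

theorem D.r1 {f g : α → Sh} [PR f] [PR g] : D fun _ x => R1 (f x) (g x) :=
  (D.eq.and D.eq).or ((D.eq.and D.eq).or ((D.eq.and D.eq).or ((D.eq.and D.eq).or
    (D.eq.and D.eq))))

theorem D.r2 {f g : α → Sh} [a : PR f] [b : PR g] : D fun _ x => R2 (f x) (g x) := by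
  have h : D fun _ (x : Sh × Sh) => R2 x.1 x.2 := by
    refine D.or (D.and D.eq (D.ex ?_)) (D.or (D.eq.and D.eq) (D.or (D.eq.and D.eq)
      (D.and D.eq (D.ex ?_)))) <;> exact D.eq
  exact h.comp (a.h.pair b.h)

abbrev Ix : Type := (ℕ × ℕ) ⊕ (List Bool × G × ℕ)
abbrev Q0 : Type := (List Bool × Code × Code) × List Bool × ℕ
abbrev CI : Type := (ℕ × Ix) ⊕ (Q0 × ℕ)

def smp (F : ℕ → ℕ) (j : ℕ) : Ix → Bool := fun c => decide (F (encode (Sum.inl (j, c) : CI)) = 1)

def B (P : (Ix → Bool) → α → Prop) : Prop :=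
  (∀ a, IsClopen {y | P y a}) ∧ D fun F (z : α × ℕ) => P (smp F z.2) z.1

theorem B.pure {p : α → Prop} (h : D fun _ a => p a) : B fun _ a => p a :=
  ⟨fun a => by by_cases hp : p a <;> simp [hp, isClopen_univ, isClopen_empty],
    h.comp Primrec.fst⟩

theorem B.atom {f : α → Ix} [PR f] : B fun y a => y (f a) = true :=
  ⟨fun a => (isClopen_discrete {true}).preimage (continuous_apply (f a)),
    (D.val (f := fun z : α × ℕ => encode (Sum.inl (z.2, f z.1) : CI)) (g := fun _ => 1)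
      (Primrec.encode.comp (Primrec.sumInl.comp (Primrec.snd.pair (PR.h.comp Primrec.fst))))
      PR.h).of_iff fun F a => by simp [smp]⟩

theorem B.comp {P : (Ix → Bool) → β → Prop} (h : B P) {f : α → β} [PR f] :
    B fun y a => P y (f a) :=
  ⟨fun a => h.1 (f a), h.2.comp (f := fun z : α × ℕ => (f z.1, z.2))
    ((PR.h.comp Primrec.fst).pair Primrec.snd)⟩

theorem B.not {P : (Ix → Bool) → α → Prop} (h : B P) : B fun y a => ¬ P y a :=
  ⟨fun a => (h.1 a).compl, h.2.not⟩

theorem B.and {P Q : (Ix → Bool) → α → Prop} (h : B P) (h' : B Q) :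
    B fun y a => P y a ∧ Q y a := ⟨fun a => (h.1 a).inter (h'.1 a), h.2.and h'.2⟩

theorem B.or {P Q : (Ix → Bool) → α → Prop} (h : B P) (h' : B Q) :
    B fun y a => P y a ∨ Q y a := ⟨fun a => (h.1 a).union (h'.1 a), h.2.or h'.2⟩

theorem B.of_iff {P Q : (Ix → Bool) → α → Prop} (h : B P) (e : ∀ y a, Q y a ↔ P y a) : B Q := by
  have : Q = P := funext fun F => funext fun a => propext (e F a)
  rw [this]; exact h

theorem B.imp {P Q : (Ix → Bool) → α → Prop} (h : B P) (h' : B Q) :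
    B fun y a => P y a → Q y a := (h.not.or h').of_iff fun _ _ => imp_iff_not_or

theorem B.iff {P Q : (Ix → Bool) → α → Prop} (h : B P) (h' : B Q) :
    B fun y a => P y a ↔ Q y a := ((h.imp h').and (h'.imp h)).of_iff fun _ _ => iff_def

theorem B.all [Inhabited β] {P : (Ix → Bool) → α → β → Prop} {f : α → ℕ} [PR f]
    (h : B fun y (z : α × β) => P y z.1 z.2) : B fun y a => ∀ b, encode b < f a → P y a b := by
  refine ⟨fun a => ?_, D.all ((D.prim (Primrec.nat_lt.comp (Primrec.encode.comp Primrec.snd)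
    (PR.h.comp (Primrec.fst.comp Primrec.fst)))).imp
      (h.2.comp (f := fun z : (α × ℕ) × β => ((z.1.1, z.2), z.1.2)) PR.h))⟩
  have hfin : {z : β | encode z < f a}.Finite :=
    (Set.finite_lt_nat _).preimage encode_injective.injOn
  have := hfin.isClopen_biInter fun b _ => h.1 (a, b)
  convert this using 1
  ext y
  simp

theorem B.ex [Inhabited β] {P : (Ix → Bool) → α → β → Prop} {f : α → ℕ} [PR f]
    (h : B fun y (z : α × β) => P y z.1 z.2) : B fun y a => ∃ b, encode b < f a ∧ P y a b :=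
  (B.all (P := fun y a b => ¬ P y a b) (f := f) h.not).not.of_iff fun _ _ => by simp

theorem B.ext {s t : α → List Bool} [a : PR s] [b : PR t] {Z : (Ix → Bool) → α → Set ℕ}
    (h : B fun y (z : α × ℕ) => z.2 ∈ Z y z.1) : B fun y a => Ext (s a) (t a) (Z y a) := by
  have : PR fun z : α × ℕ => s z.1 := ⟨a.h.comp Primrec.fst⟩
  have : PR fun z : α × ℕ => t z.1 := ⟨b.h.comp Primrec.fst⟩
  refine B.and (B.pure ((D.eq (f := s) (g := fun x => (t x).take (s x).length)).of_iff
    fun _ _ => List.prefix_iff_eq_take)) (B.and ?_ (B.pure (D.ex (D.lt.and (D.le.and D.eq)))))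
  exact B.all (β := ℕ) (f := fun x => (t x).length) ((B.pure D.le).imp ((B.pure D.eq).imp h))

end

def yl (y : Ix → Bool) (i j : ℕ) : Prop := y (Sum.inl (i, j)) = true
def yN (y : Ix → Bool) (s : List Bool) (q : G) : Prop := y (Sum.inr (s, q, 0)) = true
def yY (y : Ix → Bool) (s : List Bool) (q : G) : Set ℕ := {m | y (Sum.inr (s, q, m + 1)) = true}

def H (M J : ℕ) (Z : Set ℕ) (y : Ix → Bool) : Prop :=
  (yl y 0 1 ∧ ∀ l : ℕ, encode l < J → ¬ yl y l 0) ∧
  (∀ w : (List Bool × G) × (List Bool × G), encode w < J → yN y w.1.1 w.1.2 →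
    Ext w.1.1 w.2.1 (yY y w.1.1 w.1.2) →
      (¬ At w.1.2.2 w.2.1 ∧ ¬ (Sub (yl y) w.1.2 w.2.2 ∧ yN y w.2.1 w.2.2)) ∧ yN y w.2.1 w.1.2) ∧
  (∀ w : List Bool × Pos, encode w < J → ¬ yN y w.1 (1, 6, w.2, w.2)) ∧
  ∀ w : List Bool × G, encode w < J → yN y w.1 w.2 ∨ ∃ x : List Bool × G, encode x < M ∧
    Ext w.1 x.1 (Z ∩ YJ (yN y) (yY y) J) ∧
      (At w.2.2 x.1 ∨ Sub (yl y) w.2 x.2 ∧ yN y x.1 x.2)

def pad (a : List Bool) : Set ℕ := {i | a.getD i true = true}

theorem B_H : B fun y (z : (ℕ × ℕ) × List Bool) => H z.1.1 z.1.2 (pad z.2) y := by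
  refine (B.atom.and (B.all B.atom.not)).and (B.and (B.all (B.atom.imp
    ((B.ext B.atom).imp (((B.pure D.at).not.and (B.and ?_ B.atom).not).and B.atom))))
    (B.and (B.all B.atom.not) (B.all (B.atom.or (B.ex (B.and (B.ext (B.and (B.pure D.eq)
      (B.all (B.atom.imp B.atom)))) ((B.pure D.at).or (B.and ?_ B.atom))))))))
  · exact (B.atom.and (B.pure D.r1)).or (B.pure (D.eq.and D.r2))
  · exact (B.atom.and (B.pure D.r1)).or (B.pure (D.eq.and D.r2))

def Ph (y : Ix → Bool) (i : List Bool × Code × Code) (n : ℕ) : Prop :=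
  ¬ yN y i.1 (1, 4, (i.2.1, n, []), (i.2.2, n, []))

def K (z : Q0 × ℕ) (y : Ix → Bool) : Prop :=
  (∀ k : ℕ, encode k < z.1.2.1.length → (Ph y z.1.1 k ↔ z.1.2.1.getD k false = true)) ∧
    Ph y z.1.1 z.2

theorem B_K : B fun y z => K z y :=
  (B.all (B.atom.not.iff (B.pure D.eq))).and B.atom.not

end Pool.Agent.H50Z.Hyp
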