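import Mathlib

/-! Empirical frequencies: cluster measures and samples. -/

set_option autoImplicit false

namespace Pool.Agent.H50Z.Hyp

open MeasureTheory Filter Topology ProbabilityTheory

open Classical in
theorem count_eq_sum (p : ℕ → Prop) (N : ℕ) :
    (Nat.count p N : ℝ) = ∑ j ∈ Finset.range N, if p j then (1 : ℝ) else 0 := by
  induction N with
  | zero => simp
  | succ N ih =>
    rw [Nat.count_succ, Finset.sum_range_succ, ← ih]
    by_cases h : p N <;> simp [h]

open Classical in
theorem emp {E : Type} [TopologicalSpace E] [CompactSpace E] [T2Space E] [MeasurableSpace E]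
    [BorelSpace E] (x : ℕ → E) :
    ∃ P : Measure E, IsProbabilityMeasure P ∧ ∀ K : Set E, IsClopen K → ∀ v c : ℕ,
      ((∀ᶠ N in atTop, c * N ≤ v * Nat.count (fun j => x j ∈ K) N) → (c : ℝ) ≤ v * P.real K) ∧
      ((∀ᶠ N in atTop, v * Nat.count (fun j => x j ∈ K) N ≤ c * N) → v * P.real K ≤ c) := by
  let m : ℕ → Measure E := fun N =>
    ((N + 1 : ℕ) : ENNReal)⁻¹ • ∑ j ∈ Finset.range (N + 1), Measure.dirac (x j)
  have hm : ∀ N (K : Set E), MeasurableSet K →
      m N K = ((N + 1 : ℕ) : ENNReal)⁻¹ * (Nat.count (fun j => x j ∈ K) (N + 1) : ℕ) := by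
    intro N K hK
    simp only [m, Measure.smul_apply, smul_eq_mul, Measure.coe_finset_sum, Finset.sum_apply,
      Measure.dirac_apply' _ hK]
    congr 1
    rw [Nat.count_eq_card_filter_range, Finset.card_filter]
    push_cast
    exact Finset.sum_congr rfl fun j _ => by simp [Set.indicator_apply]
  have hp : ∀ N, IsProbabilityMeasure (m N) := fun N => ⟨by
    rw [hm N _ MeasurableSet.univ]
    simp only [Set.mem_univ, Nat.count_true]
    exact ENNReal.inv_mul_cancel (by simp) (by simp)⟩
  let μ : ℕ → ProbabilityMeasure E := fun N => ⟨m N, hp N⟩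
  let U : Ultrafilter ℕ := Ultrafilter.of atTop
  have hU : (U : Filter ℕ) ≤ atTop := Ultrafilter.of_le _
  obtain ⟨P, -, hP⟩ := isCompact_univ.ultrafilter_le_nhds (U.map μ) (by simp)
  have hP' : Tendsto μ U (𝓝 P) := hP
  refine ⟨P, P.2, fun K hK v c => ?_⟩
  have hlim : Tendsto (fun N : ℕ => (Nat.count (fun j => x j ∈ K) (N + 1) : ℝ) / ((N + 1 : ℕ) : ℝ))
      U (𝓝 ((P : Measure E).real K)) := by
    have h1 := ProbabilityMeasure.tendsto_iff_forall_integral_tendsto.1 hP'
      (BoundedContinuousFunction.indicator K hK)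
    have h2 : ∀ ν : Measure E, ∫ ω, BoundedContinuousFunction.indicator K hK ω ∂ν = ν.real K :=
      fun ν => integral_indicator_one hK.isOpen.measurableSet
    simp only [h2] at h1
    refine h1.congr fun N => ?_
    show (m N K).toReal = _
    rw [hm N K hK.isOpen.measurableSet, ENNReal.toReal_mul, ENNReal.toReal_inv,
      ENNReal.toReal_natCast, ENNReal.toReal_natCast, div_eq_inv_mul]
  have hl2 := hlim.const_mul (v : ℝ)
  have hs : ∀ {p : ℕ → Prop}, (∀ᶠ N in atTop, p N) → ∀ᶠ N in (U : Filter ℕ), p (N + 1) :=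
    fun h => ((tendsto_add_atTop_nat 1).eventually h).filter_mono hU
  constructor
  · intro h
    refine ge_of_tendsto hl2 ((hs h).mono fun N hN => ?_)
    rw [← mul_div_assoc, le_div_iff₀ (by positivity)]
    exact_mod_cast hN
  · intro h
    refine le_of_tendsto hl2 ((hs h).mono fun N hN => ?_)
    rw [← mul_div_assoc, div_le_iff₀ (by positivity)]
    exact_mod_cast hN

open Classical in
theorem samples {Ω ι : Type} [MeasurableSpace Ω] [Countable ι] (P : Measure Ω)
    [IsProbabilityMeasure P] (K : ι → Set Ω) (hK : ∀ i, MeasurableSet (K i)) :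
    ∃ x : ℕ → Ω, ∀ i, ∀ v c : ℕ,
      ((c : ℝ) < v * P.real (K i) →
        ∀ᶠ N in atTop, c * N ≤ v * Nat.count (fun j => x j ∈ K i) N) ∧
      (v * P.real (K i) < c → ∀ᶠ N in atTop, v * Nat.count (fun j => x j ∈ K i) N ≤ c * N) := by
  let μ : Measure (ℕ → Ω) := Measure.infinitePi fun _ => P
  have h : ∀ i, ∀ᵐ x ∂μ, Tendsto (fun N : ℕ => (Nat.count (fun j => x j ∈ K i) N : ℝ) / N) atTop
      (𝓝 (P.real (K i))) := by
    intro i
    let g : Ω → ℝ := (K i).indicator 1
    have hg : Measurable g := measurable_one.indicator (hK i)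
    have hind : iIndepFun (fun (j : ℕ) (x : ℕ → Ω) => g (x j)) μ :=
      iIndepFun_infinitePi (X := fun _ => g) fun _ => hg
    have mp : ∀ j, MeasurePreserving (fun x : ℕ → Ω => x j) μ P := fun j =>
      measurePreserving_eval_infinitePi (fun _ => P) j
    have hid : ∀ j, IdentDistrib (fun x : ℕ → Ω => g (x j)) g μ P := fun j =>
      ⟨(hg.comp (measurable_pi_apply j)).aemeasurable, hg.aemeasurable, by
        rw [← (mp j).map_eq, Measure.map_map hg (measurable_pi_apply j)]; rfl⟩
    have hint : Integrable g P := (integrable_const (1 : ℝ)).indicator (hK i)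
    have := strong_law_ae_real (μ := μ) (fun j x => g (x j)) ((hid 0).integrable_iff.2 hint)
      (fun a b hab => hind.indepFun hab) fun j => (hid j).trans (hid 0).symm
    have e : ∫ x, g (x 0) ∂μ = P.real (K i) := by
      rw [(hid 0).integral_eq]; exact integral_indicator_one (hK i)
    refine this.mono fun x hx => ?_
    rw [e] at hx
    refine hx.congr fun N => ?_
    rw [count_eq_sum]
    simp [g, Set.indicator_apply]
  obtain ⟨x, hx⟩ := (ae_all_iff.2 h).exists
  refine ⟨x, fun i v c => ⟨fun hc => ?_, fun hc => ?_⟩⟩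
  · filter_upwards [((hx i).const_mul (v : ℝ)).eventually (lt_mem_nhds hc),
      eventually_gt_atTop 0] with N h1 h2
    rw [← mul_div_assoc, lt_div_iff₀ (by exact_mod_cast h2)] at h1
    exact_mod_cast h1.le
  · filter_upwards [((hx i).const_mul (v : ℝ)).eventually (gt_mem_nhds hc),
      eventually_gt_atTop 0] with N h1 h2
    rw [← mul_div_assoc, div_lt_iff₀ (by exact_mod_cast h2)] at h1
    exact_mod_cast h1.le

end Pool.Agent.H50Z.Hyp
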