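import Pool.Agent.H50Z.Hyp.Arith

/-! Gates, extensions of strings, and the closure lemma for well-founded systems. -/

set_option autoImplicit false

namespace Pool.Agent.H50Z.Hyp

open Encodable
open Nat.Partrec (Code)

abbrev Pos : Type := Code × ℕ × List ℕ
abbrev Sh : Type := ℕ × Pos × Pos

def bits (t : List Bool) : List ℕ := t.map fun b => cond b 1 0

def base (p : Pos) (t : List Bool) : Prop :=
  ∃ m, m < p.2.2.length + 1 ∧ m ≤ t.length ∧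
    Code.evaln p.2.2.length p.1 (encode (p.2.1, bits (t.take m), p.2.2.take m)) = some 1

def ch (p : Pos) (j : ℕ) : Pos := (p.1, p.2.1, p.2.2 ++ [j])

def R1 (a b : Sh) : Prop :=
  (a.1 = 0 ∧ b = (1, a.2.1, a.2.1)) ∨ (a.1 = 3 ∧ b = (2, a.2.2, a.2.2)) ∨
    (a.1 = 4 ∧ b = (3, a.2.1, a.2.2)) ∨ (a.1 = 5 ∧ b = (2, a.2.1, a.2.1)) ∨
      (a.1 = 6 ∧ b = (3, a.2.1, a.2.1))

def R2 (a b : Sh) : Prop :=
  (a.1 = 1 ∧ ∃ j, b = (0, ch a.2.1 j, ch a.2.1 j)) ∨ (a.1 = 2 ∧ b = (0, a.2.1, a.2.1)) ∨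
    (a.1 = 3 ∧ b = (0, a.2.1, a.2.1)) ∨ (a.1 = 6 ∧ ∃ j, b = (5, ch a.2.1 j, ch a.2.1 j))

theorem R2.lt {a b : Sh} (h : R2 a b) : b.1 < a.1 := by
  rcases h with ⟨h, j, rfl⟩ | ⟨h, rfl⟩ | ⟨h, rfl⟩ | ⟨h, j, rfl⟩ <;> simp [h]

def At (a : Sh) (t : List Bool) : Prop := a.1 = 0 ∧ base a.2.1 t

theorem At.mono {a : Sh} {s t : List Bool} (h : At a s) (e : s <+: t) : At a t := by
  obtain ⟨h0, m, h1, h2, h3⟩ := h
  obtain ⟨u, rfl⟩ := e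
  refine ⟨h0, m, h1, by simp; omega, ?_⟩
  rwa [List.take_append_of_le_length h2]

section
variable {Λ : Type} (lt : Λ → Λ → Prop)

def Sub (q q' : Λ × Sh) : Prop :=
  (lt q'.1 q.1 ∧ R1 q.2 q'.2) ∨ (q'.1 = q.1 ∧ R2 q.2 q'.2)

def E (N : List Bool → Λ × Sh → Prop) (t : List Bool) (q : Λ × Sh) : Prop :=
  At q.2 t ∨ ∃ q', Sub lt q q' ∧ N t q'

variable {lt} {Φ : Λ × Sh → Prop} {l : Λ} {p p' : Pos}

theorem ex0 : (∃ q', Sub lt (l, 0, p, p') q' ∧ Φ q') ↔ ∃ b, lt b l ∧ Φ (b, 1, p, p) := by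
  constructor
  · rintro ⟨⟨b, σ⟩, h, h'⟩
    simp only [Sub, R1, R2] at h
    simp at h
    obtain ⟨h1, rfl⟩ := h
    exact ⟨b, h1, h'⟩
  · rintro ⟨b, h, h'⟩
    exact ⟨_, Or.inl ⟨h, by simp [R1]⟩, h'⟩

theorem ex1 : (∃ q', Sub lt (l, 1, p, p') q' ∧ Φ q') ↔ ∃ j, Φ (l, 0, ch p j, ch p j) := by
  constructor
  · rintro ⟨⟨b, σ⟩, h, h'⟩
    simp only [Sub, R1, R2] at h
    simp at h
    obtain ⟨rfl, j, rfl⟩ := h
    exact ⟨j, h'⟩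
  · rintro ⟨j, h'⟩
    exact ⟨(l, 0, ch p j, ch p j), Or.inr ⟨rfl, Or.inl ⟨rfl, j, rfl⟩⟩, h'⟩

theorem ex2 : (∃ q', Sub lt (l, 2, p, p') q' ∧ Φ q') ↔ Φ (l, 0, p, p) := by
  constructor
  · rintro ⟨⟨b, σ⟩, h, h'⟩
    simp only [Sub, R1, R2] at h
    simp at h
    obtain ⟨rfl, rfl⟩ := h
    exact h'
  · intro h'
    exact ⟨(l, 0, p, p), Or.inr ⟨rfl, by simp [R2]⟩, h'⟩

theorem ex3 : (∃ q', Sub lt (l, 3, p, p') q' ∧ Φ q') ↔
    (∃ b, lt b l ∧ Φ (b, 2, p', p')) ∨ Φ (l, 0, p, p) := by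
  constructor
  · rintro ⟨⟨b, σ⟩, h, h'⟩
    simp only [Sub, R1, R2] at h
    simp at h
    rcases h with ⟨h1, rfl⟩ | ⟨rfl, rfl⟩
    · exact Or.inl ⟨b, h1, h'⟩
    · exact Or.inr h'
  · rintro (⟨b, h, h'⟩ | h')
    · exact ⟨_, Or.inl ⟨h, by simp [R1]⟩, h'⟩
    · exact ⟨(l, 0, p, p), Or.inr ⟨rfl, by simp [R2]⟩, h'⟩

theorem ex4 : (∃ q', Sub lt (l, 4, p, p') q' ∧ Φ q') ↔ ∃ b, lt b l ∧ Φ (b, 3, p, p') := by
  constructor
  · rintro ⟨⟨b, σ⟩, h, h'⟩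
    simp only [Sub, R1, R2] at h
    simp at h
    obtain ⟨h1, rfl⟩ := h
    exact ⟨b, h1, h'⟩
  · rintro ⟨b, h, h'⟩
    exact ⟨_, Or.inl ⟨h, by simp [R1]⟩, h'⟩

theorem ex5 : (∃ q', Sub lt (l, 5, p, p') q' ∧ Φ q') ↔ ∃ b, lt b l ∧ Φ (b, 2, p, p) := by
  constructor
  · rintro ⟨⟨b, σ⟩, h, h'⟩
    simp only [Sub, R1, R2] at h
    simp at h
    obtain ⟨h1, rfl⟩ := h
    exact ⟨b, h1, h'⟩
  · rintro ⟨b, h, h'⟩
    exact ⟨_, Or.inl ⟨h, by simp [R1]⟩, h'⟩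

theorem ex6 : (∃ q', Sub lt (l, 6, p, p') q' ∧ Φ q') ↔
    (∃ b, lt b l ∧ Φ (b, 3, p, p)) ∨ ∃ j, Φ (l, 5, ch p j, ch p j) := by
  constructor
  · rintro ⟨⟨b, σ⟩, h, h'⟩
    simp only [Sub, R1, R2] at h
    simp at h
    rcases h with ⟨h1, rfl⟩ | ⟨rfl, j, rfl⟩
    · exact Or.inl ⟨b, h1, h'⟩
    · exact Or.inr ⟨j, h'⟩
  · rintro (⟨b, h, h'⟩ | ⟨j, h'⟩)
    · exact ⟨_, Or.inl ⟨h, by simp [R1]⟩, h'⟩
    · exact ⟨(l, 5, ch p j, ch p j), Or.inr ⟨rfl, Or.inr (Or.inr (Or.inr ⟨rfl, j, rfl⟩))⟩, h'⟩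

theorem E_pos {N : List Bool → Λ × Sh → Prop} {t : List Bool} {k : ℕ} :
    E lt N t (l, k + 1, p, p') ↔ ∃ q', Sub lt (l, k + 1, p, p') q' ∧ N t q' := by
  simp [E, At]

theorem sub_wf (hw : WellFounded lt) : WellFounded fun q' q : Λ × Sh => Sub lt q q' := by
  have h : WellFounded (Prod.Lex lt (fun a b : ℕ => a < b)) := hw.prod_lex wellFounded_lt
  refine Subrelation.wf (r := InvImage (Prod.Lex lt (fun a b : ℕ => a < b))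
    fun q : Λ × Sh => (q.1, q.2.1)) ?_ (InvImage.wf _ h)
  rintro ⟨a, b⟩ ⟨c, d⟩ (⟨h1, -⟩ | ⟨h1, h2⟩)
  · exact Prod.Lex.left _ _ h1
  · simp only at h1
    subst h1
    exact Prod.Lex.right _ h2.lt

end

def Ext (s t : List Bool) (Y : Set ℕ) : Prop :=
  s <+: t ∧ (∀ i, i < t.length → s.length ≤ i → t.getD i false = true → i ∈ Y) ∧
    ∃ i, i < t.length ∧ s.length ≤ i ∧ t.getD i false = true

theorem getD_of_pre {s t : List Bool} (h : s <+: t) {i : ℕ} (hi : i < s.length) :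
    t.getD i false = s.getD i false := by
  obtain ⟨u, rfl⟩ := h
  rw [List.getD_append _ _ _ _ hi]

theorem Ext.mono {s t : List Bool} {Y Z : Set ℕ} (h : Ext s t Y) (e : Y ⊆ Z) : Ext s t Z :=
  ⟨h.1, fun i h1 h2 h3 => e (h.2.1 i h1 h2 h3), h.2.2⟩

theorem Ext.trans {s t u : List Bool} {Y : Set ℕ} (h : Ext s t Y) (h' : Ext t u Y) :
    Ext s u Y := by
  refine ⟨h.1.trans h'.1, fun i h1 h2 h3 => ?_, ?_⟩
  · by_cases hi : i < t.length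
    · rw [getD_of_pre h'.1 hi] at h3
      exact h.2.1 i hi h2 h3
    · exact h'.2.1 i h1 (by omega) h3
  · obtain ⟨i, h1, h2, h3⟩ := h'.2.2
    exact ⟨i, h1, h.1.length_le.trans h2, h3⟩

theorem ext_of_inf {Y : Set ℕ} (hY : Y.Infinite) (s : List Bool) : ∃ t, Ext s t Y := by
  obtain ⟨m, hm, hl⟩ := hY.exists_gt s.length
  have e : ∀ i, s.length ≤ i →
      ((s ++ (List.replicate (m - s.length) false ++ [true])).getD i false = true ↔ i = m) := by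
    intro i hi
    rw [List.getD_append_right _ _ _ _ hi]
    by_cases h : i - s.length < m - s.length
    · rw [List.getD_append _ _ _ _ (by simpa using h), List.getD_eq_getElem _ _ (by simpa using h)]
      simp; omega
    · rw [List.getD_append_right _ _ _ _ (by simpa using h)]
      simp only [List.length_replicate]
      by_cases h2 : i = m
      · simp [h2]
      · rw [List.getD_eq_default _ _ (by simp; omega)]
        simp [h2]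
  refine ⟨s ++ (List.replicate (m - s.length) false ++ [true]), List.prefix_append _ _,
    fun i _ h2 h3 => ?_, m, by simp; omega, hl.le, (e m hl.le).2 rfl⟩
  rw [(e i h2).1 h3]; exact hm

theorem closure {Λ : Type} {lt : Λ → Λ → Prop} {N : List Bool → Λ × Sh → Prop}
    {F : Set ℕ → Prop} (hi : ∀ {Y Z}, F Y → F Z → F (Y ∩ Z))
    (h1 : ∀ {s q}, N s q → ∃ Z, F Z ∧ ∀ t, Ext s t Z → ¬ E lt N t q ∧ N t q)
    (h2 : ∀ {s q}, ¬ N s q → ∀ {Z}, F Z → ∃ t, Ext s t Z ∧ E lt N t q)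
    (h3 : ∀ {Z}, F Z → Z.Infinite) (hw : WellFounded lt)
    (ht : ∀ {a b c}, lt a b → lt b c → lt a c) {a b c : Λ} (hab : lt a b) (hbc : lt b c)
    (st : ∀ t p l, lt l c → N t (l, 2, p, p) → ∃ l', lt l' a ∧ N t (l', 2, p, p))
    (s : List Bool) (p : Pos) : ¬ N s (c, 6, p, p) := by
  intro hN
  obtain ⟨Z, hZ, hg⟩ := h1 hN
  have g1 : ∀ t, Ext s t Z → (∀ l, lt l c → ¬ N t (l, 3, p, p)) ∧
      ∀ j, ¬ N t (c, 5, ch p j, ch p j) := by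
    intro t ht
    have := (hg t ht).1
    rw [E_pos, ex6] at this
    push Not at this
    exact this
  have c1 : ∀ l, lt l c → ∀ t, Ext s t Z → ¬ N t (l, 2, p, p) := by
    intro l
    induction l using hw.induction with
    | _ l ih =>
      intro hl t ht hn
      obtain ⟨Z1, hZ1, k1⟩ := h1 hn
      obtain ⟨t', e1, e2⟩ := h2 ((g1 t ht).1 l hl) (hi hZ hZ1)
      rw [E_pos, ex3] at e2
      rcases e2 with ⟨l', h4, h5⟩ | h5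
      · exact ih l' h4 (‹∀ {a b c}, lt a b → lt b c → lt a c› h4 hl) t'
          (ht.trans (e1.mono Set.inter_subset_left)) h5
      · exact (k1 t' (e1.mono Set.inter_subset_right)).1 (E_pos.2 (ex2.2 h5))
  obtain ⟨t0, e0⟩ := ext_of_inf (h3 hZ) s
  obtain ⟨t1, e1, k1⟩ := h2 (c1 b hbc t0 e0) hZ
  rw [E_pos, ex2] at k1
  obtain ⟨Z2, hZ2, k2⟩ := h1 k1
  obtain ⟨t2, e2⟩ := ext_of_inf (h3 (hi hZ hZ2)) t1
  have n2 : ¬ N t2 (a, 1, p, p) := fun h =>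
    (k2 t2 (e2.mono Set.inter_subset_right)).1 (Or.inr (ex0.2 ⟨a, hab, h⟩))
  obtain ⟨t3, e3, k3⟩ := h2 n2 hZ
  rw [E_pos, ex1] at k3
  obtain ⟨j, k3⟩ := k3
  obtain ⟨Z3, hZ3, m3⟩ := h1 k3
  have g3 : Ext s t3 Z := ((e0.trans e1).trans (e2.mono Set.inter_subset_left)).trans e3
  obtain ⟨t4, e4, k4⟩ := h2 ((g1 t3 g3).2 j) hZ3
  rw [E_pos, ex5] at k4
  obtain ⟨l, hl, k4⟩ := k4
  obtain ⟨l', hl', k4⟩ := st _ _ _ hl k4
  obtain ⟨Z4, hZ4, m4⟩ := h1 k4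
  obtain ⟨t5, e5⟩ := ext_of_inf (h3 (hi hZ3 hZ4)) t4
  have n5 : ¬ N t5 (l', 0, ch p j, ch p j) := fun h =>
    (m4 t5 (e5.mono Set.inter_subset_right)).1 (E_pos.2 (ex2.2 h))
  obtain ⟨t6, e6, k6⟩ := h2 n5 hZ3
  refine (m3 t6 ((e4.trans (e5.mono Set.inter_subset_left)).trans e6)).1 ?_
  rcases k6 with k6 | k6
  · exact Or.inl k6
  · obtain ⟨b', h4, h5⟩ := ex0.1 k6
    exact Or.inr (ex0.2 ⟨b', ht h4 hl', h5⟩)

end Pool.Agent.H50Z.Hyp
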