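import Pool.Agent.H50Z.Hyp.Gate

/-! The generic set built from a possibly ill-founded system of gates. -/

set_option autoImplicit false

namespace Pool.Agent.H50Z.Hyp

open Encodable Pool.Agent.H50Z.Aut
open Nat.Partrec (Code)

abbrev G : Type := ℕ × Sh

def YJ (N : List Bool → G → Prop) (Y : List Bool → G → Set ℕ) (J : ℕ) : Set ℕ :=
  {m | ∀ z : List Bool × G, encode z < J → N z.1 z.2 → m ∈ Y z.1 z.2}

theorem YJ_anti {N : List Bool → G → Prop} {Y : List Bool → G → Set ℕ} {J J' : ℕ} (h : J ≤ J') :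
    YJ N Y J' ⊆ YJ N Y J := fun _ hm z hz => hm z (hz.trans_le h)

section
variable (lt : ℕ → ℕ → Prop) (N : List Bool → G → Prop) (Y : List Bool → G → Set ℕ)

def N1 : Prop := ∀ s q t, N s q → Ext s t (Y s q) → ¬ E lt N t q ∧ N t q

def Cp (Z : Set ℕ) : Prop :=
  ∀ J s q, ¬ N s q → ∃ t, Ext s t (Z ∩ YJ N Y J) ∧ E lt N t q

variable {lt N Y}

theorem generic {A : Set ℕ} (h1 : N1 lt N Y) (hc : Cp lt N Y A) {q0 : G} (h0 : ∀ s, ¬ N s q0)
    (task : ℕ → List Bool → G) :
    ∃ (s : ℕ → List Bool) (v : G → Prop), s 0 = [] ∧ (∀ k, Ext (s k) (s (k + 1)) A) ∧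
      (∀ q, ((∃ k, At q.2 (s k)) ∨ ∃ q', Sub lt q q' ∧ ¬ v q') → v q) ∧
      ∀ k, (v (task k (s k)) → ¬ N (s k) (task k (s k))) ∧ (¬ N (s k) (task k (s k)) →
        (∃ j, At (task k (s k)).2 (s j)) ∨ ∃ q', Sub lt (task k (s k)) q' ∧ ¬ v q') := by
  have step : ∀ (z : List Bool × ℕ) (q : G), ∃ z' : List Bool × ℕ, z.2 ≤ z'.2 ∧
      Ext z.1 z'.1 (A ∩ YJ N Y z.2) ∧ (N z.1 q → N z'.1 q ∧ encode (z'.1, q) < z'.2) ∧
      (¬ N z.1 q → At q.2 z'.1 ∨ ∃ q', Sub lt q q' ∧ N z'.1 q' ∧ encode (z'.1, q') < z'.2) := by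
    rintro ⟨s, J⟩ q
    by_cases hN : N s q
    · obtain ⟨t, e, -⟩ := hc (J + (encode (s, q) + 1)) s q0 (h0 s)
      refine ⟨(t, J + (encode (t, q) + 1)), by simp, e.mono
        (Set.inter_subset_inter_right _ (YJ_anti (by simp))), fun _ => ⟨?_, by simp only; omega⟩,
        fun h => absurd hN h⟩
      exact (h1 s q t hN (e.mono fun m hm => hm.2 (s, q) (by omega) hN)).2
    · obtain ⟨t, e, he | ⟨q', h2, h3⟩⟩ := hc J s q hN
      · exact ⟨(t, J), le_rfl, e, fun h => absurd h hN, fun _ => Or.inl he⟩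
      · exact ⟨(t, J + (encode (t, q') + 1)), by simp, e, fun h => absurd h hN,
          fun _ => Or.inr ⟨q', h2, h3, by simp only; omega⟩⟩
  choose nx a1 a2 a3 a4 using step
  let z : ℕ → List Bool × ℕ := fun k => Nat.rec ([], 0) (fun k w => nx w (task k w.1)) k
  have hz : ∀ k, z (k + 1) = nx (z k) (task k (z k).1) := fun _ => rfl
  have hJ : Monotone fun k => (z k).2 := monotone_nat_of_le_succ fun k => a1 _ _
  have hE : ∀ k d, Ext (z k).1 (z (k + d + 1)).1 (YJ N Y (z k).2) := by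
    intro k d
    induction d with
    | zero => exact (a2 _ _).mono Set.inter_subset_right
    | succ d ih =>
      exact ih.trans ((a2 (z (k + d + 1)) _).mono
        (Set.inter_subset_right.trans (YJ_anti (hJ (show k ≤ k + d + 1 by omega)))))
  let Cm : G → Prop := fun q => ∃ k, encode ((z k).1, q) < (z k).2 ∧ N (z k).1 q
  have hC : ∀ q, Cm q → ∃ k, ∀ k', k < k' → ¬ E lt N (z k').1 q ∧ N (z k').1 q := by
    rintro q ⟨k, h2, h3⟩
    refine ⟨k, fun k' hk => ?_⟩
    obtain ⟨d, rfl⟩ := Nat.exists_eq_add_of_lt hk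
    exact h1 _ q _ h3 ((hE k d).mono fun m hm => hm ((z k).1, q) h2 h3)
  refine ⟨fun k => (z k).1, fun q => ¬ Cm q, rfl,
    fun k => (a2 _ _).mono Set.inter_subset_left, fun q h hq => ?_, fun k => ⟨fun h hN => ?_,
      fun hN => ?_⟩⟩
  · obtain ⟨k, hk⟩ := hC q hq
    rcases h with ⟨j, hj⟩ | ⟨q', h2, h3⟩
    · refine (hk (j + k + 1) (by omega)).1 (Or.inl (hj.mono (hE j k).1))
    · obtain ⟨j, hj⟩ := hC q' (not_not.1 h3)
      exact (hk (j + k + 1) (by omega)).1 (Or.inr ⟨q', h2, (hj (j + k + 1) (by omega)).2⟩)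
  · exact h ⟨k + 1, (a3 _ _ hN).2, (a3 _ _ hN).1⟩
  · rcases a4 _ _ hN with h | ⟨q', h2, h3, h4⟩
    · exact Or.inl ⟨k + 1, h⟩
    · exact Or.inr ⟨q', h2, not_not.2 ⟨k + 1, h4, h3⟩⟩

end

inductive TW (b : Pos → Prop) : Pos → Prop
  | base (p : Pos) : b p → TW b p
  | all (p : Pos) : (∀ j, TW b (ch p j)) → TW b p

theorem sem {lt : ℕ → ℕ → Prop} {b : Pos → Prop} {v : G → Prop}
    (hv : ∀ q, v q ↔ (q.2.1 = 0 ∧ b q.2.2.1) ∨ ∃ q', Sub lt q q' ∧ ¬ v q')
    (h01 : lt 0 1) (h0 : ∀ l, ¬ lt l 0) (hm : ∀ p, v (1, 6, p, p)) {p0 p1 : Pos}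
    (hx : TW b p0 ↔ ¬ TW b p1) : v (1, 4, p0, p1) ↔ TW b p0 := by
  have v0 : ∀ l p, v (l, 0, p, p) ↔ b p ∨ ∃ l', lt l' l ∧ ∀ j, v (l', 0, ch p j, ch p j) := by
    intro l p
    rw [hv, ex0 (Φ := fun q => ¬ v q)]
    refine or_congr (by simp) (exists_congr fun l' => and_congr_right fun _ => ?_)
    rw [hv, ex1 (Φ := fun q => ¬ v q)]
    simp
  have v2 : ∀ l p, ¬ v (l, 2, p, p) ↔ v (l, 0, p, p) := by
    intro l p
    rw [hv, ex2 (Φ := fun q => ¬ v q)]
    simp
  have v3 : ∀ l p p', ¬ v (l, 3, p, p') ↔ v (l, 0, p, p) ∧ ∀ l', lt l' l → ¬ v (l', 0, p', p') := by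
    intro l p p'
    rw [hv, ex3 (Φ := fun q => ¬ v q)]
    simp only [v2]
    simp [and_comm]
  have s1 : ∀ l, Acc lt l → ∀ p, v (l, 0, p, p) → TW b p := by
    intro l hl
    induction hl with
    | intro l _ ih =>
      intro p hp
      rcases (v0 l p).1 hp with h | ⟨l', h1, h2⟩
      · exact TW.base p h
      · exact TW.all p fun j => ih l' h1 _ (h2 j)
  have ns : ∀ l, ¬ Acc lt l → ∃ l', lt l' l ∧ ¬ Acc lt l' := by
    intro l hl
    by_contra hc
    push Not at hc
    exact hl (Acc.intro l hc)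
  have s2 : ∀ p, TW b p → ∀ l, ¬ Acc lt l → v (l, 0, p, p) := by
    intro p hp
    induction hp with
    | base p h => exact fun l _ => (v0 l p).2 (Or.inl h)
    | all p _ ih =>
      intro l hl
      obtain ⟨l', h1, h2⟩ := ns l hl
      exact (v0 l p).2 (Or.inr ⟨l', h1, fun j => ih j l' h2⟩)
  have s3 : ∀ p, TW b p → ∃ l, lt l 1 ∧ Acc lt l ∧ v (l, 0, p, p) := by
    intro p hp
    induction hp with
    | base p h => exact ⟨0, h01, Acc.intro 0 fun l hl => absurd hl (h0 l), (v0 0 p).2 (Or.inl h)⟩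
    | all p h ih =>
      have := hm p
      rw [hv, ex6 (Φ := fun q => ¬ v q)] at this
      rcases this with h1 | ⟨l, h1, h2⟩ | ⟨j, h1⟩
      · simp at h1
      · rw [v3] at h2
        refine ⟨l, h1, ?_, h2.1⟩
        by_contra hl
        obtain ⟨l', h3, h4⟩ := ns l hl
        exact h2.2 l' h3 (s2 p (TW.all p h) l' h4)
      · obtain ⟨l, h2, -, h3⟩ := ih j
        refine absurd ?_ h1
        rw [hv, ex5 (Φ := fun q => ¬ v q)]
        exact Or.inr ⟨l, h2, (v2 _ _).2 h3⟩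
  rw [hv, ex4 (Φ := fun q => ¬ v q)]
  simp only [v3]
  constructor
  · rintro (h | ⟨l, -, h2, h3⟩)
    · simp at h
    · by_contra hn
      have h4 : TW b p1 := by by_contra h5; exact hn (hx.2 h5)
      obtain ⟨l', h5, h6⟩ := ns l fun hl => hn (s1 l hl _ h2)
      exact h3 l' h5 (s2 _ h4 l' h6)
  · intro h
    obtain ⟨l, h1, h2, h3⟩ := s3 _ h
    exact Or.inr ⟨l, h1, h3, fun l' h4 h5 => hx.1 h (s1 l' (h2.inv h4) _ h5)⟩

theorem TW_iff {w : ℕ → List ℕ} (c : Code) (n : ℕ) {b : Pos → Prop}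
    (hb : ∀ τ, b (c, n, τ) ↔ ∃ m, m < τ.length + 1 ∧
      Code.evaln τ.length c (encode (n, w m, τ.take m)) = some 1) :
    TW b (c, n, []) ↔ ∀ f : ℕ → ℕ, ∃ m, 1 ∈ c.eval (encode (n, w m, fw f m)) := by
  constructor
  · intro h f
    have key : ∀ p, TW b p → p.1 = c → p.2.1 = n → p.2.2 = fw f p.2.2.length →
        ∃ m, 1 ∈ c.eval (encode (n, w m, fw f m)) := by
      intro p hp
      induction hp with
      | base p hp =>
        obtain ⟨c', n', τ⟩ := p
        intro h1 h2 h3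
        simp only at h1 h2 h3
        rw [h1, h2] at hp
        obtain ⟨m, h4, h5⟩ := (hb τ).1 hp
        have h6 : τ.take m = fw f m := by rw [h3, fw_take f (by omega)]
        rw [h6] at h5
        exact ⟨m, Code.evaln_sound h5⟩
      | all p _ ih =>
        intro h1 h2 h3
        refine ih (f p.2.2.length) h1 h2 ?_
        simp only [ch, List.length_append, List.length_singleton]
        rw [fw_succ, ← h3]
    exact key _ h rfl rfl rfl
  · intro h
    by_contra hn
    have step : ∀ τ : List ℕ, ∃ j, ¬ TW b (c, n, τ) → ¬ TW b (c, n, τ ++ [j]) := by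
      intro τ
      by_contra hc
      push Not at hc
      exact (hc 0).1 (TW.all _ fun j => (hc j).2)
    choose nx hnx using step
    let τ : ℕ → List ℕ := fun k => Nat.rec [] (fun _ l => l ++ [nx l]) k
    have hτ : ∀ k, ¬ TW b (c, n, τ k) := fun k => by
      induction k with
      | zero => exact hn
      | succ k ih => exact hnx _ ih
    have e : ∀ k, τ k = fw (fun i => nx (τ i)) k := fun k => by
      induction k with
      | zero => rfl
      | succ k ih => rw [fw_succ, ← ih]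
    obtain ⟨m, hm⟩ := h fun i => nx (τ i)
    obtain ⟨k, hk⟩ := Code.evaln_complete.1 hm
    refine hτ (m + k) (TW.base _ ((hb _).2 ⟨m, ?_, ?_⟩))
    · rw [e, fw_length]; omega
    · rw [e, fw_take _ (by omega), fw_length]
      exact Code.evaln_mono (by omega) hk

theorem code_of {R : ℕ × List ℕ × List ℕ → Prop} (h : ComputablePred R) :
    ∃ c : Code, ∀ p, R p ↔ 1 ∈ c.eval (encode p) := by
  obtain ⟨inst, h⟩ := h
  obtain ⟨c, hc⟩ := Code.exists_code.1 h
  refine ⟨c, fun p => ?_⟩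
  rw [hc]
  simp only [encodek]
  by_cases hp : R p <;> simp [hp]

theorem final {lt : ℕ → ℕ → Prop} {N : List Bool → G → Prop} {Y : List Bool → G → Set ℕ}
    {A X : Set ℕ} (h1 : N1 lt N Y) (hc : Cp lt N Y A) (h01 : lt 0 1) (h0 : ∀ l, ¬ lt l 0)
    (h3 : ∀ s p, ¬ N s (1, 6, p, p))
    (h4 : ∀ (s : List Bool) (c c' : Code),
      ∃ n, ¬ (n ∈ X ↔ ¬ N s (1, 4, (c, n, []), (c', n, [])))) :
    ∃ B : Set ℕ, B ⊆ A ∧ B.Infinite ∧ ¬ (Pi11 X B ∧ Pi11 Xᶜ B) := by
  choose w hw using h4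
  obtain ⟨en, hen⟩ := exists_surjective_nat (G ⊕ Code × Code)
  obtain ⟨s, v, s0, hs, a1, a2⟩ := generic h1 hc (fun s => h3 s default) fun k s =>
    (en k).elim id fun c => (1, 4, (c.1, w s c.1 c.2, []), (c.2, w s c.1 c.2, []))
  have hpre : ∀ k d, s k <+: s (k + d) := fun k d => by
    induction d with
    | zero => exact List.prefix_refl _
    | succ d ih => exact ih.trans (hs (k + d)).1
  have hlen : ∀ k, k ≤ (s k).length := fun k => by
    induction k with
    | zero => exact Nat.zero_le _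
    | succ k ih => obtain ⟨i, h5, h6, -⟩ := (hs k).2.2; omega
  let B : Set ℕ := {i | ∃ k, (s k).getD i false = true}
  have lt_of : ∀ {t : List Bool} {i}, t.getD i false = true → i < t.length := by
    intro t i h
    by_contra hc
    rw [List.getD_eq_default _ _ (by omega)] at h
    simp at h
  have hB : ∀ k i, i < (s k).length → (i ∈ B ↔ (s k).getD i false = true) := by
    refine fun k i hi => ⟨fun ⟨j, hj⟩ => ?_, fun h => ⟨k, h⟩⟩
    rw [← getD_of_pre (hpre k j) hi, add_comm, getD_of_pre (hpre j k) (lt_of hj), hj]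
  have hbits : ∀ k m, m ≤ (s k).length →
      bits ((s k).take m) = (List.range m).map (B.indicator fun _ => (1 : ℕ)) := by
    intro k m hm
    apply List.ext_getElem
    · simp [bits, hm]
    · intro i h5 h6
      have hi : i < (s k).length := by simp at h6; omega
      have := hB k i hi
      rw [List.getD_eq_getElem _ _ hi] at this
      simp only [bits, List.getElem_map, List.getElem_take, List.getElem_range]
      by_cases hb : (s k)[i] = true
      · rw [Set.indicator_of_mem (this.2 hb)]; simp [hb]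
      · rw [Set.indicator_of_notMem fun h => hb (this.1 h)]; simp [hb]
  refine ⟨B, ?_, ?_, ?_⟩
  · rintro i ⟨k, hk⟩
    induction k with
    | zero => simp [s0] at hk
    | succ k ih =>
      by_cases hi : i < (s k).length
      · exact ih (by rw [← getD_of_pre (hs k).1 hi, hk])
      · exact (hs k).2.1 i (lt_of hk) (by omega) hk
  · refine Set.infinite_of_forall_exists_gt fun k => ?_
    obtain ⟨i, -, h6, h7⟩ := (hs (k + 1)).2.2
    exact ⟨i, ⟨_, h7⟩, by have := hlen (k + 1); omega⟩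
  · rintro ⟨⟨R, hR, e⟩, ⟨R', hR', e'⟩⟩
    obtain ⟨c, hcc⟩ := code_of hR
    obtain ⟨c', hcc'⟩ := code_of hR'
    let b : Pos → Prop := fun p => ∃ k, base p (s k)
    have hb : ∀ (c : Code) n τ, b (c, n, τ) ↔ ∃ m, m < τ.length + 1 ∧ Code.evaln τ.length c
        (encode (n, (List.range m).map (B.indicator fun _ => (1 : ℕ)), τ.take m)) = some 1 := by
      intro c n τ
      constructor
      · rintro ⟨k, m, h5, h6, h7⟩
        rw [hbits k m h6] at h7
        exact ⟨m, h5, h7⟩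
      · rintro ⟨m, h5, h7⟩
        rw [← hbits m m (hlen m)] at h7
        exact ⟨m, m, h5, hlen m, h7⟩
    have t1 : ∀ n, TW b (c, n, []) ↔ n ∈ X := fun n => by
      rw [TW_iff c n (hb c n), e]
      exact forall_congr' fun f => exists_congr fun m => (hcc (n, _, _)).symm
    have t2 : ∀ n, TW b (c', n, []) ↔ n ∈ Xᶜ := fun n => by
      rw [TW_iff c' n (hb c' n), e']
      exact forall_congr' fun f => exists_congr fun m => (hcc' (n, _, _)).symm
    have hv : ∀ q, v q ↔ (q.2.1 = 0 ∧ b q.2.2.1) ∨ ∃ q', Sub lt q q' ∧ ¬ v q' := by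
      intro q
      have e0 : (q.2.1 = 0 ∧ b q.2.2.1) ↔ ∃ k, At q.2 (s k) := by simp [At, b]
      rw [e0]
      refine ⟨fun h => ?_, a1 q⟩
      obtain ⟨k, hk⟩ := hen (Sum.inl q)
      have := a2 k
      simp only [hk, Sum.elim_inl, id] at this
      exact this.2 (this.1 h)
    have hm : ∀ p, v (1, 6, p, p) := by
      intro p
      obtain ⟨k, hk⟩ := hen (Sum.inl (1, 6, p, p))
      have := a2 k
      simp only [hk, Sum.elim_inl, id] at this
      exact a1 _ (this.2 (h3 _ p))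
    obtain ⟨k, hk⟩ := hen (Sum.inr (c, c'))
    have := a2 k
    simp only [hk, Sum.elim_inr] at this
    refine hw (s k) c c' ?_
    rw [← t1, ← sem hv h01 h0 hm (p1 := (c', w (s k) c c', [])) (by rw [t1, t2]; simp)]
    exact ⟨this.1, fun h => a1 _ (this.2 h)⟩

end Pool.Agent.H50Z.Hyp
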