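import Pool.Agent.H50Z.Hyp.Gen
import Pool.Agent.Helper292.ForceCH

/-! The random system of gates attached to a random filter. -/

set_option autoImplicit false

namespace Pool.Agent.H50Z.Hyp

open Encodable MeasureTheory Filter

variable {Ω : Type} [MeasurableSpace Ω] (P : Measure Ω) (u : Ω → Filter ℕ)

def Good (Y : Ω → Set ℕ) : Prop := (∀ m, Measurable fun ω => m ∈ Y ω) ∧ ∀ᵐ ω ∂P, Y ω ∈ u ω

theorem meas_ext {Y : Ω → Set ℕ} (h : ∀ m, Measurable fun ω => m ∈ Y ω) (s t : List Bool) :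
    Measurable fun ω => Ext s t (Y ω) :=
  measurable_const.and ((Measurable.forall fun i => measurable_const.imp
    (measurable_const.imp (measurable_const.imp (h i)))).and measurable_const)

theorem step1 [IsFiniteMeasure P] (s : List Bool) {e : List Bool → Ω → Prop}
    (he : ∀ t, Measurable (e t)) :
    ∃ (n : Ω → Prop) (Y : Ω → Set ℕ), Measurable n ∧ Good P u Y ∧
      (∀ ω t, n ω → Ext s t (Y ω) → ¬ e t ω) ∧
      ∀ Z, Good P u Z → ∀ᵐ ω ∂P, (∀ t, Ext s t (Z ω) → ¬ e t ω) → n ω := by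
  let g : (Ω → Set ℕ) → Ω → Prop := fun Z ω => ∀ t, Ext s t (Z ω) → ¬ e t ω
  have hg : ∀ Z, Good P u Z → Measurable (g Z) := fun Z hZ =>
    Measurable.forall fun t => (meas_ext hZ.1 s t).imp (he t).not
  obtain ⟨D, h1, h2, h3⟩ := Measure.exists_ae_subset_biUnion_countable P
    (C := {K | ∃ Z, Good P u Z ∧ K = {ω | g Z ω}}) (by
      rintro _ ⟨Z, hZ, rfl⟩
      exact measurableSet_setOf.2 (hg Z hZ))
  have hu : Good P u fun _ => Set.univ := ⟨fun _ => measurable_const, by simp⟩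
  obtain ⟨f, hf⟩ := (h2.insert {ω | g (fun _ => Set.univ) ω}).exists_eq_range
    (Set.insert_nonempty _ _)
  have h4 : ∀ k, ∃ Z, Good P u Z ∧ f k = {ω | g Z ω} := by
    intro k
    have : f k ∈ insert {ω | g (fun _ => Set.univ) ω} D := hf ▸ Set.mem_range_self k
    rcases this with h | h
    · exact ⟨_, hu, h⟩
    · exact h1 h
  choose Z hZ hfZ using h4
  classical
  refine ⟨fun ω => ∃ k, g (Z k) ω,
    fun ω => {m | ∀ k, g (Z k) ω → (∀ j, j < k → ¬ g (Z j) ω) → m ∈ Z k ω},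
    Measurable.exists fun k => hg _ (hZ k), ⟨fun m => Measurable.forall fun k =>
      (hg _ (hZ k)).imp ((Measurable.forall fun j => measurable_const.imp
        (hg _ (hZ j)).not).imp ((hZ k).1 m)), ?_⟩, fun ω t hn h => ?_, fun W hW => ?_⟩
  · filter_upwards [ae_all_iff.2 fun k => (hZ k).2] with ω hω
    by_cases hn : ∃ k, g (Z k) ω
    · refine mem_of_superset (hω (Nat.find hn)) fun m hm k hk hj => ?_
      have : Nat.find hn = k := (Nat.find_eq_iff hn).2 ⟨hk, hj⟩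
      exact this ▸ hm
    · exact mem_of_superset univ_mem fun m _ k hk => absurd ⟨k, hk⟩ hn
  · exact Nat.find_spec hn t (h.mono fun m hm =>
      hm _ (Nat.find_spec hn) fun j hj => Nat.find_min hn hj)
  · filter_upwards [h3 _ ⟨W, hW, rfl⟩] with ω hω h
    obtain ⟨K, hK, h5⟩ := hω h
    have : K ∈ Set.range f := hf ▸ Set.mem_insert_of_mem _ hK
    obtain ⟨k, rfl⟩ := this
    rw [hfZ] at h5
    exact ⟨k, h5⟩

theorem sys {Λ : Type} [IsFiniteMeasure P] {lt : Λ → Λ → Prop} (hw : WellFounded lt)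
    (hc : ∀ a, {b | lt b a}.Countable) :
    ∃ (N : Ω → List Bool → Λ × Sh → Prop) (Y : Ω → List Bool → Λ × Sh → Set ℕ), ∀ s q,
      (Measurable fun ω => N ω s q) ∧ Good P u (fun ω => Y ω s q) ∧
      (∀ ω t, N ω s q → Ext s t (Y ω s q) → ¬ E lt (N ω) t q) ∧
      ∀ Z, Good P u Z → ∀ᵐ ω ∂P, (∀ t, Ext s t (Z ω) → ¬ E lt (N ω) t q) → N ω s q := by
  have st : ∀ (e : List Bool → Ω → Prop) (s : List Bool), ∃ (n : Ω → Prop) (Y : Ω → Set ℕ),
      Measurable n ∧ ((∀ t, Measurable (e t)) → Good P u Y ∧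
      (∀ ω t, n ω → Ext s t (Y ω) → ¬ e t ω) ∧
      ∀ Z, Good P u Z → ∀ᵐ ω ∂P, (∀ t, Ext s t (Z ω) → ¬ e t ω) → n ω) := by
    intro e s
    by_cases he : ∀ t, Measurable (e t)
    · obtain ⟨n, Y, h1, h2⟩ := step1 P u s he
      exact ⟨n, Y, h1, fun _ => h2⟩
    · exact ⟨fun _ => True, fun _ => ∅, measurable_const, fun h => absurd h he⟩
  choose n Y h1 h2 using st
  let M : Λ × Sh → List Bool → Ω → Prop := (sub_wf hw).fix fun q r =>
    n fun t ω => At q.2 t ∨ ∃ q', ∃ h : Sub lt q q', r q' h t ω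
  have hM : ∀ q, M q = n fun t ω => E lt (fun s q => M q s ω) t q := by
    intro q
    simp only [M]
    rw [WellFounded.fix_eq]
    simp only [E, exists_prop]
  have hm : ∀ q s, Measurable (M q s) := fun q s => by rw [hM]; exact h1 _ _
  refine ⟨fun ω s q => M q s ω, fun ω s q => Y (fun t ω => E lt (fun s q => M q s ω) t q) s ω,
    fun s q => ⟨hm q s, ?_⟩⟩
  have he : ∀ t, Measurable fun ω => E lt (fun s q => M q s ω) t q := by
    intro t
    have hq : {q' | Sub lt q q'}.Countable := by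
      refine (((hc q.1).insert q.1).prod (Set.countable_univ (α := Sh))).mono ?_
      rintro q' (h | h)
      · exact ⟨Or.inr h.1, trivial⟩
      · exact ⟨Or.inl h.1, trivial⟩
    have := hq.to_subtype
    have e : (fun ω => E lt (fun s q => M q s ω) t q) =
        fun ω => At q.2 t ∨ ∃ q' : {q' | Sub lt q q'}, M q' t ω := by
      funext ω
      simp [E]
    rw [e]
    exact measurable_const.or (Measurable.exists fun q' => hm _ _)
  have := h2 _ s he
  rw [← hM] at this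
  exact this

open Pool.Agent.Helper292.ForceCH in
theorem rand [IsFiniteMeasure P] (hu : ∀ Z, Measurable fun ω => Z ∈ u ω)
    (hi : ∀ᵐ ω ∂P, ∀ Z ∈ u ω, Z.Infinite) :
    ∃ (lt : ℕ → ℕ → Prop) (N : Ω → List Bool → G → Prop) (Y : Ω → List Bool → G → Set ℕ),
      lt 0 1 ∧ (∀ l, ¬ lt l 0) ∧ (∀ s q, Measurable fun ω => N ω s q) ∧
      (∀ s q m, Measurable fun ω => m ∈ Y ω s q) ∧
      (∀ᵐ ω ∂P, N1 lt (N ω) (Y ω) ∧ ∀ s p, ¬ N ω s (1, 6, p, p)) ∧
      ∀ Z : Set ℕ, ∀ᵐ ω ∂P, Z ∈ u ω → Cp lt (N ω) (Y ω) Z := by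
  have hc : ∀ a : Om, {b | b < a}.Countable := fun a =>
    Set.countable_coe_iff.1 (countable_Iio a)
  obtain ⟨M, W, h⟩ := sys P u (wellFounded_lt (α := Om)) hc
  have hs : ∀ z : List Bool × Pos, ∃ S : Set Om, S.Countable ∧
      ∀ l, ∀ᵐ ω ∂P, M ω z.1 (l, 2, z.2, z.2) → ∃ l' ∈ S, M ω z.1 (l', 2, z.2, z.2) := by
    intro z
    obtain ⟨D, h1, h2, h3⟩ := Measure.exists_ae_subset_biUnion_countable P
      (C := Set.range fun l : Om => {ω | M ω z.1 (l, 2, z.2, z.2)}) (by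
        rintro _ ⟨l, rfl⟩
        exact measurableSet_setOf.2 (h _ _).1)
    choose f hf using h1
    have := h2.to_subtype
    refine ⟨Set.range fun K : D => f K.2, Set.countable_range _, fun l => ?_⟩
    filter_upwards [h3 _ ⟨l, rfl⟩] with ω hω hl
    obtain ⟨K, hK, h5⟩ := hω hl
    rw [← hf hK] at h5
    exact ⟨_, ⟨⟨K, hK⟩, rfl⟩, h5⟩
  choose S hS hS' using hs
  let o : Om := (wellFounded_lt (α := Om)).min Set.univ Set.univ_nonempty
  have ho : ∀ l, ¬ l < o := fun l => WellFounded.not_lt_min _ _ (Set.mem_univ l)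
  obtain ⟨f, hf⟩ := ((Set.countable_iUnion hS).insert o).exists_eq_range (Set.insert_nonempty _ _)
  obtain ⟨a, ha⟩ := exists_bound f
  obtain ⟨b, hab⟩ := exists_gt a
  obtain ⟨c, hbc⟩ := exists_gt b
  obtain ⟨g, hg⟩ := ((hc c).insert c).exists_eq_range (Set.insert_nonempty _ _)
  let e : ℕ → Om := fun n => Nat.casesOn n o fun n => Nat.casesOn n c g
  have he : ∀ n, e n ≤ c := by
    rintro (_ | _ | n)
    · exact not_lt.1 (ho c)
    · exact le_rfl
    · have : g n ∈ insert c {b | b < c} := hg ▸ Set.mem_range_self n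
      rcases this with h | h
      · exact h.le
      · exact le_of_lt h
  have he' : ∀ l, l ≤ c → ∃ n, e n = l := by
    intro l hl
    have : l ∈ Set.range g := hg ▸ (hl.eq_or_lt.imp id id)
    obtain ⟨n, hn⟩ := this
    exact ⟨n + 2, hn⟩
  let lt : ℕ → ℕ → Prop := fun i j => e i < e j
  let N : Ω → List Bool → G → Prop := fun ω s q => M ω s (e q.1, q.2)
  let Y : Ω → List Bool → G → Set ℕ := fun ω s q => W ω s (e q.1, q.2)
  have hE : ∀ ω t q, E lt (N ω) t q ↔ E (· < ·) (M ω) t (e q.1, q.2) := by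
    intro ω t q
    refine or_congr Iff.rfl ⟨?_, ?_⟩
    · rintro ⟨q', h1 | h1, h2⟩
      · exact ⟨_, Or.inl h1, h2⟩
      · exact ⟨(e q'.1, q'.2), Or.inr ⟨congrArg e h1.1, h1.2⟩, h2⟩
    · rintro ⟨⟨l, σ⟩, h1 | ⟨h1, h3⟩, h2⟩
      · obtain ⟨n, rfl⟩ := he' l (h1.1.le.trans (he _))
        exact ⟨(n, σ), Or.inl h1, h2⟩
      · simp only at h1
        subst h1
        exact ⟨(q.1, σ), Or.inr ⟨rfl, h3⟩, h2⟩
  have hYJ : ∀ J, Good P u fun ω => YJ (N ω) (Y ω) J := by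
    refine fun J => ⟨fun m => Measurable.forall fun z => measurable_const.imp
      ((h _ _).1.imp ((h _ _).2.1.1 m)), ?_⟩
    filter_upwards [ae_all_iff.2 fun z : List Bool × G => (h z.1 (e z.2.1, z.2.2)).2.1.2] with ω hω
    have hfin : {z : List Bool × G | encode z < J}.Finite :=
      (Set.finite_lt_nat J).preimage encode_injective.injOn
    refine mem_of_superset ((biInter_mem hfin).2 fun z _ => hω z) fun m hm z hz _ => ?_
    exact Set.mem_iInter₂.1 hm z hz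
  have hCp : ∀ Z : Set ℕ, ∀ᵐ ω ∂P, Z ∈ u ω → Cp lt (N ω) (Y ω) Z := by
    intro Z
    have hG : ∀ J, Good P u fun ω => {m | (Z ∈ u ω → m ∈ Z) ∧ m ∈ YJ (N ω) (Y ω) J} := by
      refine fun J => ⟨fun m => ((hu Z).imp measurable_const).and ((hYJ J).1 m), ?_⟩
      filter_upwards [(hYJ J).2] with ω hω
      by_cases hZ : Z ∈ u ω
      · exact mem_of_superset (inter_mem hZ hω) fun m hm => ⟨fun _ => hm.1, hm.2⟩
      · exact mem_of_superset hω fun m hm => ⟨fun h => absurd h hZ, hm⟩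
    filter_upwards [ae_all_iff.2 fun z : ℕ × List Bool × G =>
      (h z.2.1 (e z.2.2.1, z.2.2.2)).2.2.2 _ (hG z.1)] with ω hω hZ J s q hN
    by_contra hn
    push Not at hn
    exact hN (hω (J, s, q) fun t ht h1 =>
      hn t (ht.mono fun m hm => ⟨hm.1 hZ, hm.2⟩) ((hE ω t q).2 h1))
  have hN1 : ∀ᵐ ω ∂P, N1 lt (N ω) (Y ω) := by
    filter_upwards [ae_all_iff.2 fun z : List Bool × List Bool × G =>
      (h z.2.1 (e z.2.2.1, z.2.2.2)).2.2.2 _ (h z.1 (e z.2.2.1, z.2.2.2)).2.1] with ω hω s q t h1 h2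
    exact ⟨fun h3 => (h _ _).2.2.1 ω t h1 h2 ((hE ω t q).1 h3),
      hω (s, t, q) fun t' h3 => (h _ _).2.2.1 ω t' h1 (h2.trans h3)⟩
  refine ⟨lt, N, Y, (not_lt.1 (ho a)).trans_lt (hab.trans hbc), fun l => ho _,
    fun s q => (h _ _).1, fun s q => (h _ _).2.1.1, ?_, hCp⟩
  filter_upwards [hN1, hCp Set.univ, hi, ae_all_iff.2 fun J => (hYJ J).2,
    ae_all_iff.2 fun z : (List Bool × Pos) × ℕ => hS' z.1 (e z.2)] with ω h1 h2 h3 h4 h5
  refine ⟨h1, ?_⟩
  obtain ⟨a', rfl⟩ := he' a (hab.trans hbc).le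
  obtain ⟨b', rfl⟩ := he' b hbc.le
  refine closure (lt := lt) (N := N ω) (F := fun Z => ∃ J, YJ (N ω) (Y ω) J ⊆ Z) ?_ ?_ ?_ ?_
    (InvImage.wf e wellFounded_lt) (fun h h' => lt_trans h h') (a := a') (b := b') (c := 1)
    hab hbc ?_
  · rintro Y Z ⟨J, hJ⟩ ⟨J', hJ'⟩
    exact ⟨J + J', Set.subset_inter ((YJ_anti (by omega)).trans hJ)
      ((YJ_anti (by omega)).trans hJ')⟩
  · intro s q hN
    exact ⟨Y ω s q, ⟨encode (s, q) + 1, fun m hm => hm (s, q) (by omega) hN⟩, fun t => h1 s q t hN⟩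
  · rintro s q hN Z ⟨J, hJ⟩
    obtain ⟨t, h6, h7⟩ := h2 univ_mem J s q hN
    exact ⟨t, h6.mono (Set.inter_subset_right.trans hJ), h7⟩
  · rintro Z ⟨J, hJ⟩
    exact (h3 _ (h4 J)).mono hJ
  · intro t p l _ hl
    obtain ⟨l', h6, h7⟩ := h5 ((t, p), l) hl
    have : l' ∈ Set.range f := hf ▸ Set.mem_insert_of_mem _ (Set.mem_iUnion.2 ⟨_, h6⟩)
    obtain ⟨k, rfl⟩ := this
    obtain ⟨n, hn⟩ := he' (f k) ((ha k).trans (hab.trans hbc)).le
    exact ⟨n, show e n < e a' from hn ▸ ha k, show M ω t (e n, _) from hn ▸ h7⟩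

end Pool.Agent.H50Z.Hyp
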