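import Pool.Agent.H50Z.Hyp.Code
import Pool.Agent.H50Z.Hyp.Rand
import Pool.Agent.H50Z.Hyp.Emp

/-! Codes of random systems, and the main theorem. -/

set_option autoImplicit false
set_option synthInstance.maxSize 20000

namespace Pool.Agent.H50Z.Hyp

open Encodable Filter MeasureTheory Topology
open Nat.Partrec (Code)

theorem H.mono {M M' J J' : ℕ} {Z Z' : Set ℕ} {y : Ix → Bool} (h : H M J Z y) (hM : M ≤ M')
    (hJ : J' ≤ J) (hZ : ∀ i, i < M → i ∈ Z → i ∈ Z') : H M' J' Z' y := by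
  obtain ⟨⟨h0, h1⟩, h2, h3, h4⟩ := h
  refine ⟨⟨h0, fun l hl => h1 l (by omega)⟩, fun w hw => h2 w (by omega),
    fun w hw => h3 w (by omega), fun w hw => (h4 w (by omega)).imp id ?_⟩
  rintro ⟨x, h5, h6, h7⟩
  refine ⟨x, by omega, ⟨h6.1, fun i a1 a2 a3 => ?_, h6.2.2⟩, h7⟩
  have h8 := h6.2.1 i a1 a2 a3
  refine ⟨hZ i ?_ h8.1, YJ_anti hJ h8.2⟩
  have e1 := length_le_encode x.1
  have e2 : encode x.1 ≤ encode x := Nat.left_le_pair _ _
  omega

theorem H_iff {Z : Set ℕ} {y : Ix → Bool} : (∀ J, ∃ M, H M J Z y) ↔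
    (yl y 0 1 ∧ ∀ l, ¬ yl y l 0) ∧ N1 (yl y) (yN y) (yY y) ∧ (∀ s p, ¬ yN y s (1, 6, p, p)) ∧
      Cp (yl y) (yN y) (yY y) Z := by
  constructor
  · intro h
    choose M h using h
    refine ⟨⟨(h 0).1.1, fun l => (h _).1.2 l (Nat.lt_succ_self _)⟩, fun s q t h1 h2 => ?_,
      fun s p => (h _).2.2.1 (s, p) (Nat.lt_succ_self _), fun J s q hN => ?_⟩
    · have := fun q' => (h _).2.1 ((s, q), (t, q')) (Nat.lt_succ_self _) h1 h2
      refine ⟨?_, (this q).2⟩
      rintro (h3 | ⟨q', h3⟩)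
      · exact (this q).1.1 h3
      · exact (this q').1.2 h3
    · rcases (h (J + (encode (s, q) + 1))).2.2.2 (s, q) (by omega) with h1 | ⟨x, -, h2, h3⟩
      · exact absurd h1 hN
      · exact ⟨x.1, h2.mono (Set.inter_subset_inter_right _ (YJ_anti (by omega))),
          h3.imp id fun h4 => ⟨x.2, h4⟩⟩
  · rintro ⟨⟨h0, h1⟩, h2, h3, h4⟩ J
    have : ∀ w : List Bool × G, ∃ x : List Bool × G, ¬ yN y w.1 w.2 →
        Ext w.1 x.1 (Z ∩ YJ (yN y) (yY y) J) ∧
          (At w.2.2 x.1 ∨ Sub (yl y) w.2 x.2 ∧ yN y x.1 x.2) := by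
      intro w
      by_cases hN : yN y w.1 w.2
      · exact ⟨w, fun h => absurd hN h⟩
      · obtain ⟨t, h5, h6 | ⟨q', h6⟩⟩ := h4 J w.1 w.2 hN
        · exact ⟨(t, w.2), fun _ => ⟨h5, Or.inl h6⟩⟩
        · exact ⟨(t, q'), fun _ => ⟨h5, Or.inr h6⟩⟩
    choose x hx using this
    have hfin : {z : List Bool × G | encode z < J}.Finite :=
      (Set.finite_lt_nat _).preimage encode_injective.injOn
    obtain ⟨M, hM⟩ := (hfin.image fun w => encode (x w)).bddAbove
    refine ⟨M + 1, ⟨h0, fun l _ => h1 l⟩, fun w _ a1 a2 => ?_, fun w _ => h3 _ _, fun w hw => ?_⟩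
    · have := h2 _ _ _ a1 a2
      exact ⟨⟨fun h => this.1 (Or.inl h), fun h => this.1 (Or.inr ⟨_, h⟩)⟩, this.2⟩
    · by_cases hN : yN y w.1 w.2
      · exact Or.inl hN
      · exact Or.inr ⟨x w, Nat.lt_succ_of_le (hM ⟨w, hw, rfl⟩), hx w hN⟩

open Classical in
def Dn (d N0 : ℕ) (Z : Set ℕ) : Prop := ∀ N, N0 ≤ N → N ≤ d * Nat.count (fun i => i ∈ Z) N

open Classical in
theorem count_le {p q : ℕ → Prop} {N : ℕ} (h : ∀ i, i < N → p i → q i) :
    Nat.count p N ≤ Nat.count q N := by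
  rw [Nat.count_eq_card_filter_range, Nat.count_eq_card_filter_range]
  refine Finset.card_le_card fun i hi => ?_
  rw [Finset.mem_filter] at hi ⊢
  exact ⟨hi.1, h i (Finset.mem_range.1 hi.1) hi.2⟩

section
variable {α : Type} [Primcodable α]

open Classical in
theorem D.cnt {K : (ℕ → ℕ) → α → ℕ → Prop} (h : D fun F (z : α × ℕ) => K F z.1 z.2)
    {R : α → ℕ → ℕ → Prop} (hR : D fun _ (z : (α × ℕ) × ℕ) => R z.1.1 z.1.2 z.2) :
    D fun F (z : α × ℕ) => R z.1 z.2 (Nat.count (K F z.1) z.2) :=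
  (D.ex (P := fun F (z : α × ℕ) r => Nat.count (K F z.1) z.2 = r ∧ R z.1 z.2 r)
    ((h.count.comp (f := fun z : (α × ℕ) × ℕ => (z.1.1, z.1.2, z.2)) PR.h).and hR)).of_iff
    fun _ _ => by simp

theorem D.ev {P : (ℕ → ℕ) → α → ℕ → Prop} (h : D fun F (z : α × ℕ) => P F z.1 z.2) :
    D fun F a => ∀ᶠ N in atTop, P F a N :=
  (D.ex (P := fun F a N0 => ∀ N, N0 ≤ N → P F a N) (D.all (D.le.imp
    (h.comp (f := fun z : (α × ℕ) × ℕ => (z.1.1, z.2)) PR.h)))).of_iff
    fun _ _ => eventually_atTop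

end

open Classical in
def CC (d N0 : ℕ) (F : ℕ → ℕ) : Prop :=
  (∀ J, ∃ M, ∀ a : List Bool, Dn d N0 (pad a) → ∀ᶠ N in atTop,
    1 * N ≤ 2 * d * Nat.count (fun j => H M J (pad a) (smp F j)) N) ∧
  ∀ z : Q0 × ℕ, (F (encode (Sum.inr z : CI)) = 1 ∧ ∀ᶠ N in atTop,
      1 * N ≤ z.1.2.2 * Nat.count (fun j => K z (smp F j)) N) ∨
    (¬ F (encode (Sum.inr z : CI)) = 1 ∧ ∀ᶠ N in atTop,
      z.1.2.2 * Nat.count (fun j => K z (smp F j)) N ≤ 2 * N)

open Classical in
theorem D_CC (d N0 : ℕ) : D fun F (_ : Unit) => CC d N0 F := by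
  have h1 : D fun _ (a : List Bool) => Dn d N0 (pad a) :=
    D.all (D.le.imp (D.cnt (K := fun _ (a : List Bool) i => i ∈ pad a)
      (R := fun _ N r => N ≤ d * r) D.eq D.le))
  have h2 : D fun F (z : (ℕ × ℕ) × List Bool) => ∀ᶠ N in atTop,
      1 * N ≤ 2 * d * Nat.count (fun j => H z.1.1 z.1.2 (pad z.2) (smp F j)) N :=
    D.ev (D.cnt (K := fun F (z : (ℕ × ℕ) × List Bool) j => H z.1.1 z.1.2 (pad z.2) (smp F j))
      (R := fun _ N r => 1 * N ≤ 2 * d * r) B_H.2 D.le)
  have h3 : D fun F (z : Q0 × ℕ) => F (encode (Sum.inr z : CI)) = 1 :=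
    D.val (Primrec.encode.comp Primrec.sumInr) PR.h
  have h4 : D fun F (z : Q0 × ℕ) => ∀ᶠ N in atTop,
      1 * N ≤ z.1.2.2 * Nat.count (fun j => K z (smp F j)) N :=
    D.ev (D.cnt (K := fun F (z : Q0 × ℕ) j => K z (smp F j))
      (R := fun z N r => 1 * N ≤ z.1.2.2 * r) B_K.2 D.le)
  have h5 : D fun F (z : Q0 × ℕ) => ∀ᶠ N in atTop,
      z.1.2.2 * Nat.count (fun j => K z (smp F j)) N ≤ 2 * N :=
    D.ev (D.cnt (K := fun F (z : Q0 × ℕ) j => K z (smp F j))
      (R := fun z N r => z.1.2.2 * r ≤ 2 * N) B_K.2 D.le)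
  refine D.and (D.all (D.ex (D.all (D.imp (h1.comp Primrec.snd) ?_))))
    (D.all (((h3.and h4).or (h3.not.and h5)).comp Primrec.snd))
  exact h2.comp (f := fun z : ((Unit × ℕ) × ℕ) × List Bool => ((z.1.2, z.1.1.2), z.2)) PR.h

theorem pad_fw (Z : Set ℕ) (M : ℕ) : ∃ a : List Bool, Z ⊆ pad a ∧ ∀ i, i < M → i ∈ pad a → i ∈ Z := by
  classical
  have e : ∀ i, i < M → ((List.range M).map fun i => decide (i ∈ Z)).getD i true = decide (i ∈ Z) :=
    fun i hi => by rw [List.getD_eq_getElem _ _ (by simpa using hi)]; simp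
  refine ⟨(List.range M).map fun i => decide (i ∈ Z), fun i hi => ?_, fun i hi h => ?_⟩
  · show List.getD _ _ _ = true
    by_cases h : i < M
    · rw [e i h]; simpa using hi
    · exact List.getD_eq_default _ _ (by simpa using h)
  · have h' : List.getD _ _ _ = true := h
    rw [e i hi] at h'
    simpa using h'

theorem unif {Ω : Type} [MeasurableSpace Ω] (P : Measure Ω) [IsFiniteMeasure P]
    (y : Ω → Ix → Bool) {d N0 : ℕ} (J : ℕ)
    (h : ∀ Z, Dn d N0 Z → ∃ M, 1 < 2 * (d : ℝ) * P.real {ω | H M J Z (y ω)}) :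
    ∃ M, ∀ Z, Dn d N0 Z → 1 < 2 * (d : ℝ) * P.real {ω | H M J Z (y ω)} := by
  classical
  by_contra hc
  push Not at hc
  choose Z hZ hZ' using hc
  let U : Ultrafilter ℕ := Ultrafilter.of atTop
  have hU : (U : Filter ℕ) ≤ atTop := Ultrafilter.of_le _
  let W : Set ℕ := {i | ∀ᶠ M in (U : Filter ℕ), i ∈ Z M}
  have hW : ∀ L, ∀ᶠ M in (U : Filter ℕ), ∀ i, i < L → (i ∈ Z M ↔ i ∈ W) := by
    intro L
    refine (eventually_all_finite (Set.finite_lt_nat L)).2 fun i _ => ?_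
    by_cases hi : i ∈ W
    · exact Eventually.mono hi fun M hM => by simp [hM, hi]
    · exact (Ultrafilter.eventually_not.2 hi).mono fun M hM => by simp [hM, hi]
  obtain ⟨M0, h0⟩ := h W fun N hN => by
    obtain ⟨M, hM⟩ := (hW N).exists
    exact (hZ M N hN).trans (Nat.mul_le_mul_left _ (count_le fun i hi h => (hM i hi).1 h))
  obtain ⟨M, h1, h2⟩ := ((hW M0).and (hU (eventually_ge_atTop M0))).exists
  refine (h0.trans_le ?_).not_ge (hZ' M)
  gcongr
  · exact measure_ne_top _ _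
  · exact fun h3 => h3.mono h2 le_rfl fun i hi h => (h1 i hi).2 h

theorem CC_ne {d : ℕ} (N0 : ℕ) : ∃ F, CC d N0 F := by
  classical
  borelize (Ultrafilter ℕ)
  obtain ⟨P, hP, hp⟩ := emp (E := Ultrafilter ℕ) pure
  have hcl : ∀ Z : Set ℕ, IsClopen {u : Ultrafilter ℕ | Z ∈ u} := fun Z =>
    ⟨ultrafilter_isClosed_basic Z, ultrafilter_isOpen_basic Z⟩
  have hi : ∀ᵐ (ω : Ultrafilter ℕ) ∂P, ∀ Z ∈ (ω : Filter ℕ), Z.Infinite := by
    have : ∀ m : ℕ, ∀ᵐ ω ∂P, {m} ∉ ω := by
      intro m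
      have h1 : ∀ v : ℕ, v * P.real {u : Ultrafilter ℕ | {m} ∈ u} ≤ 1 := by
        intro v
        have := (hp _ (hcl {m}) v 1).2 ((eventually_ge_atTop v).mono fun N hN => by
          have : Nat.count (fun j => (pure j : Ultrafilter ℕ) ∈ {u : Ultrafilter ℕ | {m} ∈ u}) N
              ≤ 1 := by
            rw [Nat.count_eq_card_filter_range]
            refine Finset.card_le_one.2 fun a ha b hb => ?_
            have h1 : a = m := (Finset.mem_filter.1 ha).2
            have h2 : b = m := (Finset.mem_filter.1 hb).2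
            rw [h1, h2]
          calc _ ≤ v * 1 := Nat.mul_le_mul_left _ (by convert this)
            _ ≤ 1 * N := by omega)
        simpa using this
      have h2 : P.real {u : Ultrafilter ℕ | {m} ∈ u} = 0 := by
        by_contra h
        obtain ⟨v, hv⟩ := exists_nat_gt (1 / P.real {u : Ultrafilter ℕ | {m} ∈ u})
        rw [div_lt_iff₀ (lt_of_le_of_ne measureReal_nonneg (Ne.symm h))] at hv
        exact (h1 v).not_gt hv
      rw [measureReal_eq_zero_iff] at h2
      exact measure_eq_zero_iff_ae_notMem.1 h2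
    filter_upwards [ae_all_iff.2 this] with ω hω Z hZ hf
    obtain ⟨m, -, rfl⟩ := Ultrafilter.eq_pure_of_finite_mem hf hZ
    exact hω m (by simp)
  obtain ⟨lt, N, Y, h1, h2, h3, h4, h5, h6⟩ := rand P (fun ω : Ultrafilter ℕ => (ω : Filter ℕ))
    (fun Z => measurableSet_setOfPred.1 (hcl Z).isOpen.measurableSet) hi
  let y : Ultrafilter ℕ → Ix → Bool := fun ω => Sum.elim (fun p => decide (lt p.1 p.2))
    fun w => Nat.casesOn w.2.2 (decide (N ω w.1 w.2.1)) fun m => decide (m ∈ Y ω w.1 w.2.1)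
  have e1 : ∀ ω, yl (y ω) = lt := fun ω => by ext i j; simp [yl, y]
  have e2 : ∀ ω, yN (y ω) = N ω := fun ω => by ext i j; simp [yN, y]
  have e3 : ∀ ω, yY (y ω) = Y ω := fun ω => by ext i j; simp [yY, y]
  have hy : Measurable y := by
    refine measurable_pi_lambda _ ?_
    rintro (p | ⟨s, q, _ | m⟩)
    · exact measurable_const
    · refine measurable_to_bool ?_
      convert (h3 s q).setOf using 1
      ext; simp [y]
    · refine measurable_to_bool ?_
      convert (h4 s q m).setOf using 1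
      ext; simp [y]
  have hu : ∀ J, ∃ M, ∀ Z, Dn d N0 Z → 1 < 2 * (d : ℝ) * P.real {ω | H M J Z (y ω)} := by
    refine fun J => unif P y J fun Z hZ => ?_
    have a1 : (1 : ℝ) ≤ d * P.real {u : Ultrafilter ℕ | Z ∈ u} := by
      have := (hp _ (hcl Z) d 1).1 ((eventually_ge_atTop N0).mono fun N hN => by
        rw [one_mul]
        convert hZ N hN using 3
        simp)
      simpa using this
    have a2 : P.real {u : Ultrafilter ℕ | Z ∈ u} ≤ P.real (⋃ M, {ω | H M J Z (y ω)}) := by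
      refine ENNReal.toReal_mono (measure_ne_top _ _) (measure_mono_ae ?_)
      filter_upwards [h5, h6 Z] with ω a1 a2 a3
      have := H_iff.2 (show (yl (y ω) 0 1 ∧ ∀ l, ¬ yl (y ω) l 0) ∧ _ ∧ _ ∧ Cp _ _ _ Z by
        rw [e1, e2, e3]; exact ⟨⟨h1, h2⟩, a1.1, a1.2, a2 a3⟩) J
      exact Set.mem_iUnion.2 this
    have a3 : Tendsto (fun M => P.real {ω | H M J Z (y ω)}) atTop
        (𝓝 (P.real (⋃ M, {ω | H M J Z (y ω)}))) :=
      (ENNReal.tendsto_toReal (measure_ne_top _ _)).comp (tendsto_measure_iUnion_atTop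
        fun M M' hM ω h => H.mono h hM le_rfl fun _ _ h => h)
    refine ((a3.const_mul (2 * (d : ℝ))).eventually (lt_mem_nhds ?_)).exists
    have := mul_le_mul_of_nonneg_left a2 (Nat.cast_nonneg (α := ℝ) d)
    linarith
  obtain ⟨x, hx⟩ := samples (ι := ((ℕ × ℕ) × List Bool) ⊕ (Q0 × ℕ)) P
    (Sum.elim (fun z => {ω | H z.1.1 z.1.2 (pad z.2) (y ω)}) fun z => {ω | K z (y ω)}) (by
      rintro (z | z)
      · exact hy (B_H.1 z).isOpen.measurableSet
      · exact hy (B_K.1 z).isOpen.measurableSet)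
  let φ : CI → ℕ := Sum.elim (fun c => if y (x c.1) c.2 = true then 1 else 0)
    fun z => if 1 < z.1.2.2 * P.real {ω | K z (y ω)} then 1 else 0
  let F : ℕ → ℕ := fun n => ((decode n : Option CI).map φ).getD 0
  have hF : ∀ c, F (encode c) = φ c := fun c => by simp only [F, encodek]; rfl
  have hs : ∀ j, smp F j = y (x j) := fun j => by
    funext c
    simp only [smp, hF, φ, Sum.elim_inl]
    cases y (x j) c <;> simp
  refine ⟨F, fun J => ?_, fun z => ?_⟩
  · obtain ⟨M, hM⟩ := hu J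
    refine ⟨M, fun a ha => ?_⟩
    simp only [hs]
    exact (hx (Sum.inl ((M, J), a)) (2 * d) 1).1 (by simpa using hM _ ha)
  · simp only [hs, hF, φ, Sum.elim_inr]
    by_cases h : 1 < z.1.2.2 * P.real {ω | K z (y ω)}
    · exact Or.inl ⟨if_pos h, (hx (Sum.inr z) _ 1).1 (by simpa using h)⟩
    · refine Or.inr ⟨by simp [h], (hx (Sum.inr z) _ 2).2 ?_⟩
      simp only [Sum.elim_inr, Nat.cast_ofNat]
      linarith

theorem main {X A : Set ℕ} (hX : ¬ (Pi11 X ∅ ∧ Pi11 Xᶜ ∅)) {d N0 : ℕ} (hA : Dn d N0 A) :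
    ∃ B : Set ℕ, B ⊆ A ∧ B.Infinite ∧ ¬ (Pi11 X B ∧ Pi11 Xᶜ B) := by
  classical
  obtain ⟨en, hen⟩ := exists_surjective_nat Q0
  obtain ⟨F, ⟨c1, c2⟩, hF⟩ := basis (D_CC d N0).1 (CC_ne N0) hX
    (f := fun k n => encode (Sum.inr (en k, n) : CI)) fun k =>
      Primrec.encode.comp (Primrec.sumInr.comp ((Primrec.const _).pair Primrec.id))
  obtain ⟨P, hP, hp⟩ := emp (smp F)
  have hcl : ∀ M J, IsClopen {y | H M J A y} := by
    intro M J
    obtain ⟨a, h1, h2⟩ := pad_fw A M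
    convert B_H.1 ((M, J), a) using 1
    ext y
    exact ⟨fun h => h.mono le_rfl le_rfl fun i _ h => h1 h, fun h => h.mono le_rfl le_rfl h2⟩
  have hT : ∀ J, (1 : ℝ) ≤ 2 * d * P.real (⋃ M, {y | H M J A y}) := by
    intro J
    obtain ⟨M, hM⟩ := c1 J
    obtain ⟨a, h1, h2⟩ := pad_fw A M
    have h3 := (hp _ (B_H.1 ((M, J), a)) (2 * d) 1).1 (hM a fun N hN =>
      (hA N hN).trans (Nat.mul_le_mul_left _ (count_le fun i _ h => h1 h)))
    push_cast at h3
    refine h3.trans ?_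
    gcongr
    · exact measure_ne_top _ _
    · exact fun y hy => Set.mem_iUnion.2 ⟨M, H.mono hy le_rfl le_rfl h2⟩
  have hT' : P (⋂ J, ⋃ M, {y | H M J A y}) ≠ 0 := by
    have a3 : Tendsto (fun J => P.real (⋃ M, {y | H M J A y})) atTop
        (𝓝 (P.real (⋂ J, ⋃ M, {y | H M J A y}))) :=
      (ENNReal.tendsto_toReal (measure_ne_top _ _)).comp (tendsto_measure_iInter_atTop
        (fun J => (MeasurableSet.iUnion fun M =>
          (hcl M J).isOpen.measurableSet).nullMeasurableSet)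
        (fun J J' hJ => Set.iUnion_mono fun M y h => H.mono h le_rfl hJ fun _ _ h => h)
        ⟨0, measure_ne_top _ _⟩)
    have := ge_of_tendsto' (a3.const_mul (2 * (d : ℝ))) hT
    intro h
    rw [Measure.real, h] at this
    norm_num at this
  have hN : ∀ i, P {y | ∀ n, n ∈ X ↔ Ph y i n} = 0 := by
    intro i
    by_contra hne
    let T : ℕ → Set (Ix → Bool) := fun L => {y | ∀ k, k < L → (k ∈ X ↔ Ph y i k)}
    have hPh : ∀ k, IsClopen {y | Ph y i k} := fun k =>
      (show B fun y (z : (List Bool × Code × Code) × ℕ) => Ph y z.1 z.2 from B.atom.not).1 (i, k)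
    have hTm : ∀ L, MeasurableSet (T L) := fun L =>
      (Measurable.forall fun k => measurable_const.imp (measurable_const.iff
        (measurableSet_setOfPred.1 (hPh k).isOpen.measurableSet))).setOf
    have e : (⋂ L, T L) = {y | ∀ n, n ∈ X ↔ Ph y i n} := by
      ext y
      simp only [T, Set.mem_iInter, Set.mem_setOf_eq]
      exact ⟨fun h n => h (n + 1) n (by omega), fun h _ k _ => h k⟩
    have a3 : Tendsto (fun L => P.real (T L)) atTop (𝓝 (P.real (⋂ L, T L))) :=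
      (ENNReal.tendsto_toReal (measure_ne_top _ _)).comp (tendsto_measure_iInter_atTop
        (fun L => (hTm L).nullMeasurableSet)
        (fun L L' hL y h k hk => h k (by omega)) ⟨0, measure_ne_top _ _⟩)
    have hpos : 0 < P.real (⋂ L, T L) := by
      rw [e]; exact ENNReal.toReal_pos hne (measure_ne_top _ _)
    obtain ⟨v, hv⟩ := exists_nat_gt (2 / P.real (⋂ L, T L))
    rw [div_lt_iff₀ hpos] at hv
    obtain ⟨L, hL⟩ := ((a3.const_mul (v : ℝ)).eventually
      (gt_mem_nhds (lt_add_one (v * P.real (⋂ L, T L))))).exists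
    let x : List Bool := (List.range L).map fun k => decide (k ∈ X)
    obtain ⟨k, hk⟩ := hen (i, x, v)
    obtain ⟨n, hn⟩ := hF k
    rw [hk] at hn
    have hK : ∀ y, K ((i, x, v), n) y ↔ y ∈ T L ∧ Ph y i n := by
      refine fun y => and_congr (forall_congr' fun k => ?_) Iff.rfl
      simp only [x, List.length_map, List.length_range, encode_nat]
      refine imp_congr_right fun hk => ?_
      rw [List.getD_eq_getElem _ _ (by simpa using hk)]
      simp [iff_comm]
    have hq := hp _ (B_K.1 ((i, x, v), n)) v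
    refine hn ⟨fun h => ?_, fun h => ?_⟩
    · rcases c2 ((i, x, v), n) with h1 | h1
      · exact h1.1
      · have h2 := (hq 2).2 h1.2
        have h3 : P.real (⋂ L, T L) ≤ P.real {y | K ((i, x, v), n) y} := by
          gcongr
          · exact measure_ne_top _ _
          · intro y hy
            exact (hK y).2 ⟨Set.mem_iInter.1 hy L, (Set.mem_iInter.1 hy (n + 1) n (by omega)).1 h⟩
        have := mul_le_mul_of_nonneg_left h3 (Nat.cast_nonneg (α := ℝ) v)
        push_cast at h2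
        linarith
    · by_contra hnX
      rcases c2 ((i, x, v), n) with h1 | h1
      · have h2 := (hq 1).1 h1.2
        have h3 : P.real {y | K ((i, x, v), n) y} + P.real (⋂ L, T L) ≤ P.real (T L) := by
          rw [← measureReal_union _ (MeasurableSet.iInter hTm)]
          · gcongr
            · exact measure_ne_top _ _
            · exact Set.union_subset (fun y hy => ((hK y).1 hy).1) (Set.iInter_subset _ _)
          · exact Set.disjoint_left.2 fun y hy hy' =>
              hnX ((Set.mem_iInter.1 hy' (n + 1) n (by omega)).2 ((hK y).1 hy).2)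
        have := mul_le_mul_of_nonneg_left h3 (Nat.cast_nonneg (α := ℝ) v)
        push_cast at h2
        linarith
      · exact h1.1 h
  obtain ⟨y, h1, h2⟩ := (Filter.Frequently.and_eventually (frequently_ae_mem_iff.2 hT')
    (ae_all_iff.2 fun i => measure_eq_zero_iff_ae_notMem.1 (hN i))).exists
  obtain ⟨⟨b1, b2⟩, b3, b4, b5⟩ := H_iff.1 fun J => Set.mem_iUnion.1 (Set.mem_iInter.1 h1 J)
  exact final b3 b5 b1 b2 b4 fun s c c' => not_forall.1 (h2 (s, c, c'))

end Pool.Agent.H50Z.Hyp
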